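import Mathlib

/-!
# Extended Frege refutations with lines of bounded depth and local extension variables

Definitions used in the statement of the hand-in `LocalExtension` of `MP_e81270_lc`.
-/

namespace Pool.Agent.Lib.MP_e81270_lc_LocalExt

/-- The pigeonhole variables: `(p, h)` says that pigeon `p` (of `n + 1`) sits in hole `h`
(of `n`). -/
abbrev Edge (n : ℕ) := Fin (n + 1) × Fin n

/-- The propositional variables: the pigeonhole variables and `m` extension variables. -/
abbrev Var (n m : ℕ) := Edge n ⊕ Fin m

/-- Propositional formulas, built from variables by negation and disjunction of any arity. -/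
inductive Fm (n m : ℕ) : Type
  | var : Var n m → Fm n m
  | neg : Fm n m → Fm n m
  | or : (k : ℕ) → (Fin k → Fm n m) → Fm n m

variable {n m : ℕ}

/-- The depth of a formula: the largest number of nested disjunctions. -/
def Fm.depth : Fm n m → ℕ
  | .var _ => 0
  | .neg A => A.depth
  | .or _ f => 1 + Finset.univ.sup fun i => (f i).depth

/-- The size of a formula: its number of variable occurrences and connectives. -/
def Fm.size : Fm n m → ℕ
  | .var _ => 1
  | .neg A => 1 + A.size
  | .or _ f => 1 + ∑ i, (f i).size

/-- The variable `x` occurs in a formula. -/
def Fm.Occurs (x : Var n m) : Fm n m → Prop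
  | .var y => y = x
  | .neg A => A.Occurs x
  | .or _ f => ∃ i, (f i).Occurs x

/-- The extension variable `i` abbreviates the formula `D i`. The definitions are acyclic (`D i`
mentions only extension variables `j < i`), and `supp i` contains every pigeonhole variable on
which the `i`-th extension variable depends, directly or through earlier extension variables. -/
def IsSupport (D : Fin m → Fm n m) (supp : Fin m → Finset (Edge n)) : Prop :=
  ∀ i, (∀ e, (D i).Occurs (.inl e) → e ∈ supp i) ∧
    ∀ j, (D i).Occurs (.inr j) → j < i ∧ supp j ⊆ supp i

/-- One step of a proof from the onto functional pigeonhole axioms with the extension definitions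
`D`. A line is a list of formulas, read as their disjunction; `prev` is the set of earlier lines.
The axioms are: every pigeon has a hole, every hole has a pigeon, no two distinct pigeonhole
variables with a common pigeon or hole hold together, the two halves of each equivalence between
an extension variable `i` and `D i`, and the excluded middle. The rules are weakening (with
permutation and contraction), cut, introduction of a disjunction, of a negated disjunction, and of
a double negation. -/
inductive Step (D : Fin m → Fm n m) (prev : Set (List (Fm n m))) : List (Fm n m) → Prop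
  | pigeon (p : Fin (n + 1)) : Step D prev (List.ofFn fun h : Fin n => .var (.inl (p, h)))
  | hole (h : Fin n) : Step D prev (List.ofFn fun p : Fin (n + 1) => .var (.inl (p, h)))
  | excl (e f : Edge n) : e ≠ f → e.1 = f.1 ∨ e.2 = f.2 →
      Step D prev [.neg (.var (.inl e)), .neg (.var (.inl f))]
  | extLeft (i : Fin m) : Step D prev [.neg (.var (.inr i)), D i]
  | extRight (i : Fin m) : Step D prev [.var (.inr i), .neg (D i)]
  | middle (A : Fm n m) : Step D prev [A, .neg A]
  | weak {Γ Δ : List (Fm n m)} : Γ ∈ prev → Γ ⊆ Δ → Step D prev Δ
  | cut {A : Fm n m} {Γ : List (Fm n m)} : A :: Γ ∈ prev → .neg A :: Γ ∈ prev → Step D prev Γ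
  | orIntro {k : ℕ} {f : Fin k → Fm n m} {Γ : List (Fm n m)} (i : Fin k) :
      f i :: Γ ∈ prev → Step D prev (.or k f :: Γ)
  | norIntro {k : ℕ} {f : Fin k → Fm n m} {Γ : List (Fm n m)} :
      (∀ i, .neg (f i) :: Γ ∈ prev) → Step D prev (.neg (.or k f) :: Γ)
  | dneg {A : Fm n m} {Γ : List (Fm n m)} : A :: Γ ∈ prev → Step D prev (.neg (.neg A) :: Γ)

/-- `C 0, C 1, …, C (N - 1)` is a refutation of the onto functional pigeonhole principle with the
extension definitions `D`: every line follows from earlier lines, and the empty line occurs. -/
def IsRefutation (D : Fin m → Fm n m) {N : ℕ} (C : Fin N → List (Fm n m)) : Prop :=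
  (∀ t, Step D {Γ | ∃ s < t, C s = Γ} (C t)) ∧ ∃ t, C t = []

/-- The total size of a sequence of lines: the number of lines plus the sizes of all formulas in
them. -/
def totalSize {N : ℕ} (C : Fin N → List (Fm n m)) : ℕ :=
  ∑ t, (1 + ((C t).map Fm.size).sum)

end Pool.Agent.Lib.MP_e81270_lc_LocalExt
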