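import Pool.Agent.Lib.MP_e81270_lc_LocalExt.Phase1

/-!
# Truth values of extension variables, trees of formulas, and one round of switching
-/

namespace Pool.Agent.Lib.MP_e81270_lc_LocalExt

open Classical Finset

variable {n m : ℕ}

/-- Truth value of a formula under an assignment of the variables. -/
def sem (a : Edge n → Prop) (z : Fin m → Prop) : Fm n m → Prop
  | .var (.inl e) => a e
  | .var (.inr i) => z i
  | .neg A => ¬ sem a z A
  | .or _ f => ∃ i, sem a z (f i)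

lemma sem_congr {a a' : Edge n → Prop} {z z' : Fin m → Prop} {A : Fm n m}
    (h1 : ∀ e, A.Occurs (.inl e) → (a e ↔ a' e)) (h2 : ∀ i, A.Occurs (.inr i) → (z i ↔ z' i)) :
    sem a z A ↔ sem a' z' A := by
  induction A with
  | var w =>
    cases w with
    | inl e => exact h1 e rfl
    | inr i => exact h2 i rfl
  | neg A ih => exact not_congr (ih h1 h2)
  | or k f ih =>
    exact exists_congr fun i => ih i (fun e he => h1 e ⟨i, he⟩) (fun j hj => h2 j ⟨i, hj⟩)

/-- The truth values of the extension variables determined by an assignment of the pigeonhole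
variables. -/
noncomputable def zval (D : Fin m → Fm n m) (a : Edge n → Prop) (i : Fin m) : Prop :=
  sem a (fun j => ∃ _ : j < i, zval D a j) (D i)
  termination_by i

lemma zval_iff {D : Fin m → Fm n m} {supp : Fin m → Finset (Edge n)} (hS : IsSupport D supp)
    (a : Edge n → Prop) (i : Fin m) : zval D a i ↔ sem a (zval D a) (D i) := by
  rw [zval]
  apply sem_congr
  · intro e _; rfl
  · intro j hj
    have := ((hS i).2 j hj).1
    simp [this]

lemma zval_local {D : Fin m → Fm n m} {supp : Fin m → Finset (Edge n)} (hS : IsSupport D supp)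
    {a a' : Edge n → Prop} (i : Fin m) (h : ∀ e ∈ supp i, (a e ↔ a' e)) :
    zval D a i ↔ zval D a' i := by
  induction i using WellFoundedLT.induction with
  | _ i ih =>
    rw [zval_iff hS, zval_iff hS]
    apply sem_congr
    · intro e he
      exact h e ((hS i).1 e he)
    · intro j hj
      obtain ⟨h1, h2⟩ := (hS i).2 j hj
      exact ih j h1 fun e he => h e (h2 he)

/-- The trees of the variables. -/
noncomputable def vtree (D : Fin m → Fm n m) (ρ : Finset (Edge n)) (Q : Fin m → List (Vx n)) :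
    Var n m → MT n
  | .inl e => .node (.inl e.1) fun f => .leaf (decide (f = e))
  | .inr i => queryAll (fun acc => .leaf (decide (zval D (· ∈ acc) i))) (Q i) ρ

/-- The tree of a formula, given the trees of the disjunctions. -/
noncomputable def tr (t0 : Var n m → MT n) (t : Fm n m → MT n) : Fm n m → MT n
  | .var w => t0 w
  | .neg A => (tr t0 t A).flip
  | .or k f => t (.or k f)

lemma tr_congr {t0 : Var n m → MT n} {t t' : Fm n m → MT n} {j : ℕ}
    (h : ∀ A : Fm n m, A.depth ≤ j → t A = t' A) (A : Fm n m) (hA : A.depth ≤ j) :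
    tr t0 t A = tr t0 t' A := by
  induction A with
  | var w => rfl
  | neg A ih => simp only [tr]; rw [ih hA]
  | or k f _ => exact h _ hA

/-- `Q i` covers the free part of the support of the `i`-th extension variable. -/
def Covers (ρ : Finset (Edge n)) (supp : Fin m → Finset (Edge n)) (Q : Fin m → List (Vx n)) :
    Prop :=
  ∀ i, ∀ e ∈ supp i, ¬ Cov ρ (.inl e.1) → ¬ Cov ρ (.inr e.2) → ∃ v ∈ Q i, inc e v

lemma vtree_edge {D : Fin m → Fm n m} {ρ : Finset (Edge n)} {Q : Fin m → List (Vx n)} {e : Edge n}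
    {M : Finset (Edge n)} {b : Bool} (hM : IsM M) (h : Runs (vtree D ρ Q (.inl e)) M b) :
    b = true ↔ e ∈ M := by
  obtain ⟨f, hf, hfe, hb⟩ := h
  have hb' : decide (f = e) = b := hb
  subst hb'
  rw [decide_eq_true_iff]
  constructor
  · rintro rfl; exact hf
  · intro he
    exact hM f hf e he (Or.inl hfe)

lemma vtree_edge_true {D : Fin m → Fm n m} {ρ : Finset (Edge n)} {Q : Fin m → List (Vx n)}
    {e : Edge n} {M : Finset (Edge n)} (he : e ∈ M) : Runs (vtree D ρ Q (.inl e)) M true :=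
  ⟨e, he, rfl, by simp [Runs]⟩

/-- Edges of the support do not appear later than the queries. -/
lemma decided {ρ M : Finset (Edge n)} {supp : Fin m → Finset (Edge n)}
    {Q : Fin m → List (Vx n)} (hQ : Covers ρ supp Q) (hρM : ρ ⊆ M) {i : Fin m}
    (hc : ∀ v ∈ Q i, Cov M v) {M' : Finset (Edge n)} (hM' : IsM M') (hMM' : M ⊆ M') :
    ∀ e ∈ supp i, e ∈ M' → e ∈ M := by
  intro e he heM'
  by_cases h1 : Cov ρ (.inl e.1)
  · obtain ⟨f, hf, hfe⟩ := h1
    have : e = f := hM'.eq_of_inc (v := .inl e.1) heM' (hMM' (hρM hf)) rfl hfe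
    exact this ▸ hρM hf
  by_cases h2 : Cov ρ (.inr e.2)
  · obtain ⟨f, hf, hfe⟩ := h2
    have : e = f := hM'.eq_of_inc (v := .inr e.2) heM' (hMM' (hρM hf)) rfl hfe
    exact this ▸ hρM hf
  obtain ⟨v, hv, hev⟩ := hQ i e he h1 h2
  obtain ⟨f, hf, hfv⟩ := hc v hv
  have : e = f := hM'.eq_of_inc heM' (hMM' hf) hev hfv
  exact this ▸ hf

lemma vtree_cov {D : Fin m → Fm n m} {ρ : Finset (Edge n)} {Q : Fin m → List (Vx n)} {i : Fin m}
    {M : Finset (Edge n)} {b : Bool} (h : Runs (vtree D ρ Q (.inr i)) M b) :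
    ∀ v ∈ Q i, Cov M v := by
  obtain ⟨acc, h1, h2, h3, h4, h5⟩ := Runs.queryAll h
  intro v hv
  obtain ⟨e, he, hev⟩ := h3 v hv
  exact ⟨e, (mem_inter.1 he).2, hev⟩

lemma vtree_ext {D : Fin m → Fm n m} {supp : Fin m → Finset (Edge n)} (hS : IsSupport D supp)
    {ρ : Finset (Edge n)} {Q : Fin m → List (Vx n)} (hQ : Covers ρ supp Q) {i : Fin m}
    {M : Finset (Edge n)} {b : Bool} (hM : IsM M) (hρM : ρ ⊆ M)
    (h : Runs (vtree D ρ Q (.inr i)) M b) : b = true ↔ zval D (· ∈ M) i := by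
  obtain ⟨acc, h1, h2, h3, h4, h5⟩ := Runs.queryAll h
  have hb : decide (zval D (· ∈ acc) i) = b := h5
  subst hb
  rw [decide_eq_true_iff]
  have haM : acc ⊆ M := h2.trans (union_subset hρM subset_rfl)
  apply zval_local hS
  intro e he
  refine ⟨fun h => haM h, fun h => decided hQ h1 ?_ hM haM e he h⟩
  intro v hv
  obtain ⟨e, he, hev⟩ := h3 v hv
  exact ⟨e, (mem_inter.1 he).1, hev⟩

lemma vtree_depth {D : Fin m → Fm n m} {ρ : Finset (Edge n)} {Q : Fin m → List (Vx n)} {h : ℕ}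
    (h1 : 1 ≤ h) (hQ : ∀ i, (Q i).length ≤ h) (w : Var n m) : (vtree D ρ Q w).depth ≤ h := by
  cases w with
  | inl e =>
    have h0 : (univ.sup fun f : Edge n => (MT.leaf (n := n) (decide (f = e))).depth) ≤ 0 :=
      Finset.sup_le fun _ _ => le_rfl
    simp only [vtree, MT.depth] at h0 ⊢
    omega
  | inr i =>
    have := depth_queryAll (fun acc => MT.leaf (decide (zval D (· ∈ acc) i))) 0
      (by intro acc; simp [MT.depth]) (Q i) ρ
    exact this.trans (by simpa using hQ i)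

/-! ### Trees of disjunctions -/

/-- The terms of a disjunction: the short matchings which make one of the trees answer yes. -/
noncomputable def terms (T : Fm n m → MT n) (h : ℕ) (F : Set (Fm n m)) :
    List (Finset (Edge n)) :=
  (univ.filter fun σ => IsM σ ∧ σ.card ≤ h ∧ ∃ A ∈ F, Runs (T A) σ true).toList

lemma mem_terms {T : Fm n m → MT n} {h : ℕ} {F : Set (Fm n m)} {σ : Finset (Edge n)} :
    σ ∈ terms T h F ↔ IsM σ ∧ σ.card ≤ h ∧ ∃ A ∈ F, Runs (T A) σ true := by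
  simp [terms]

/-- The tree `U` represents the disjunction of the formulas in `F` relative to `ρ`. -/
def Good (T : Fm n m → MT n) (ρ : Finset (Edge n)) (F : Set (Fm n m)) (U : MT n) : Prop :=
  ∀ M, IsM M → ρ ⊆ M → (Runs U M true → ∃ A ∈ F, Runs (T A) M true) ∧
    (Runs U M false → ∀ M', IsM M' → M ⊆ M' → ∀ A ∈ F, ¬ Runs (T A) M' true)

lemma Good.mono {T : Fm n m → MT n} {ρ ρ' : Finset (Edge n)} {F : Set (Fm n m)} {U : MT n}
    (h : Good T ρ F U) (hs : ρ ⊆ ρ') : Good T ρ' F U :=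
  fun M h1 h2 => h M h1 (hs.trans h2)

lemma Good.congr {T T' : Fm n m → MT n} {ρ : Finset (Edge n)} {F : Set (Fm n m)} {U : MT n}
    (h : Good T ρ F U) (hT : ∀ A ∈ F, T A = T' A) : Good T' ρ F U := by
  intro M h1 h2
  refine ⟨fun hr => ?_, fun hr M' h3 h4 A hA => ?_⟩
  · obtain ⟨A, hA, hr'⟩ := (h M h1 h2).1 hr
    exact ⟨A, hA, hT A hA ▸ hr'⟩
  · rw [← hT A hA]
    exact (h M h1 h2).2 hr M' h3 h4 A hA

lemma good_of_correct {T : Fm n m → MT n} {h : ℕ} {F : Set (Fm n m)} {ρ : Finset (Edge n)}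
    {U : MT n} (hT : ∀ A ∈ F, (T A).depth ≤ h) (hU : Correct (terms T h F) ρ U) :
    Good T ρ F U := by
  intro M hM hρM
  obtain ⟨h1, h2⟩ := hU M hM hρM
  constructor
  · intro hr
    obtain ⟨π, hπ, hπM⟩ := h1 hr
    obtain ⟨_, _, A, hA, hrA⟩ := mem_terms.1 hπ
    exact ⟨A, hA, hrA.mono hπM⟩
  · intro hr M' hM' hMM' A hA hrA
    obtain ⟨σ, hσ, hσc, hrσ⟩ := hrA.path
    exact h2 hr M' hM' hMM' σ (mem_terms.2 ⟨hM'.mono hσ, hσc.trans (hT A hA), A, hA, hrσ⟩) hσ

lemma exts_nonempty {ρ : Finset (Edge n)} (hρ : IsM ρ) {c : ℕ} (h1 : ρ.card ≤ c) (h2 : c ≤ n) :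
    (exts ρ c).Nonempty := by
  induction c, h1 using Nat.le_induction with
  | base => exact ⟨ρ, mem_exts.2 ⟨hρ, subset_rfl, rfl⟩⟩
  | succ c hc ih =>
    obtain ⟨M, hM⟩ := ih (by omega)
    obtain ⟨h3, h4, h5⟩ := mem_exts.1 hM
    have h6 : (freeP M).Nonempty := by
      rw [← card_pos, card_freeP h3]; omega
    obtain ⟨p, hp⟩ := h6
    obtain ⟨e, he, hM'⟩ := exists_extend h3 (by omega) (.inl p)
    have heM : e ∉ M := by
      intro h
      rw [freeP, mem_sdiff] at hp
      exact hp.2 (mem_image.2 ⟨e, h, he⟩)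
    exact ⟨insert e M, mem_exts.2 ⟨hM', h4.trans (subset_insert _ _), by
      rw [card_insert_of_notMem heM, h5]⟩⟩

lemma arith_round {s a : ℕ} (ha : 8 * s ≤ a) (hs : 1 ≤ s) :
    64 * s * ((a + 1) * (a + 2)) * ((a + 1) * a) + a ≤ 16 * a ^ 5 := by
  have h8 : 8 ≤ a := by omega
  have h1 : 8 * (a + 1) ≤ 9 * a := by omega
  have h2 : 8 * (a + 2) ≤ 10 * a := by omega
  have h3 : a * 1 ≤ a * a ^ 4 := Nat.mul_le_mul_left _ (Nat.one_le_pow _ _ (by omega))
  have h4 : (8 * (a + 1)) * (8 * (a + 2)) * (8 * (a + 1)) ≤ (9 * a) * (10 * a) * (9 * a) :=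
    Nat.mul_le_mul (Nat.mul_le_mul h1 h2) h1
  have h5 : 64 * s * ((a + 1) * (a + 2)) * ((a + 1) * a) * 64 ≤
      (a * a) * ((8 * (a + 1)) * (8 * (a + 2)) * (8 * (a + 1))) := by
    calc 64 * s * ((a + 1) * (a + 2)) * ((a + 1) * a) * 64
        = (8 * s) * (a * ((8 * (a + 1)) * (8 * (a + 2)) * (8 * (a + 1)))) := by ring
      _ ≤ a * (a * ((8 * (a + 1)) * (8 * (a + 2)) * (8 * (a + 1)))) := Nat.mul_le_mul_right _ ha
      _ = _ := by ring
  have h6 : (a * a) * ((8 * (a + 1)) * (8 * (a + 2)) * (8 * (a + 1))) ≤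
      (a * a) * ((9 * a) * (10 * a) * (9 * a)) := Nat.mul_le_mul_left _ h4
  have h7 : (a * a) * ((9 * a) * (10 * a) * (9 * a)) = 810 * a ^ 5 := by ring
  have h8 : a * a ^ 4 = a ^ 5 := by ring
  have h9 : a ≤ a ^ 5 := by omega
  omega

/-- One round of switching: a single matching gives shallow trees to all members of a small
family of disjunctions. -/
theorem exists_round {ρ : Finset (Edge n)} {s a : ℕ} (hρ : IsM ρ) (hs : 1 ≤ s) (ha : 8 * s ≤ a)
    (hn : 16 * a ^ 5 ≤ n) (hc : ρ.card = n - 16 * a ^ 5) {ι : Type*} (X : Finset ι)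
    (hX : X.card < 4 ^ s) (F : ι → Set (Fm n m)) (T : Fm n m → MT n)
    (hT : ∀ x ∈ X, ∀ A ∈ F x, (T A).depth ≤ 2 * s) :
    ∃ ρ', IsM ρ' ∧ ρ ⊆ ρ' ∧ ρ'.card = n - a ∧
      ∀ x ∈ X, ∃ U : MT n, U.depth ≤ 2 * s ∧ Good T ρ' (F x) U := by
  have har := arith_round ha hs
  have haa : a ≤ 16 * a ^ 5 := by
    have := Nat.zero_le (64 * s * ((a + 1) * (a + 2)) * ((a + 1) * a)); omega
  have han : a ≤ n := haa.trans hn
  have hρc : ρ.card ≤ n - a := by rw [hc]; omega
  have hpar : 16 * ((2 * (2 * s) * ((n - (n - a) + 1) * (n + 1 - (n - a) + 1))) *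
      ((n + 1 - (n - a)) * (n - (n - a)))) ≤ (n - a) + 1 - ρ.card := by
    have e1 : n - (n - a) = a := by omega
    have e2 : n + 1 - (n - a) = a + 1 := by omega
    rw [e1, e2, hc]
    have e3 : 16 * ((2 * (2 * s) * ((a + 1) * (a + 1 + 1))) * ((a + 1) * a)) =
        64 * s * ((a + 1) * (a + 2)) * ((a + 1) * a) := by ring
    rw [e3]
    omega
  have hlong : ∀ x ∈ X, ((exts ρ (n - a)).filter fun M => Long (terms T (2 * s) (F x)) M s).card *
      16 ^ s ≤ 2 * (exts ρ (n - a)).card := by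
    intro x _
    apply card_long (k := 2 * s) _ hs hρc hpar
    intro π hπ
    exact (mem_terms.1 hπ).2.1
  have hEpos : 0 < (exts ρ (n - a)).card := (exts_nonempty hρ hρc (by omega)).card_pos
  have hex : ∃ M ∈ exts ρ (n - a), ∀ x ∈ X, ¬ Long (terms T (2 * s) (F x)) M s := by
    by_contra hcon
    push Not at hcon
    have h1 : exts ρ (n - a) ⊆
        X.biUnion fun x => (exts ρ (n - a)).filter fun M => Long (terms T (2 * s) (F x)) M s := by
      intro M hM
      obtain ⟨x, hx, hl⟩ := hcon M hM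
      exact mem_biUnion.2 ⟨x, hx, mem_filter.2 ⟨hM, hl⟩⟩
    have h2 : (exts ρ (n - a)).card * 16 ^ s ≤ X.card * (2 * (exts ρ (n - a)).card) := by
      calc (exts ρ (n - a)).card * 16 ^ s
          ≤ (∑ x ∈ X, ((exts ρ (n - a)).filter fun M =>
              Long (terms T (2 * s) (F x)) M s).card) * 16 ^ s :=
            Nat.mul_le_mul_right _ ((card_le_card h1).trans card_biUnion_le)
        _ = ∑ x ∈ X, ((exts ρ (n - a)).filter fun M =>
              Long (terms T (2 * s) (F x)) M s).card * 16 ^ s := by rw [sum_mul]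
        _ ≤ X.card * (2 * (exts ρ (n - a)).card) := by
            rw [← smul_eq_mul]
            exact sum_le_card_nsmul _ _ _ hlong
    have h3 : 16 ^ s ≤ X.card * 2 := by
      apply Nat.le_of_mul_le_mul_left _ hEpos
      calc (exts ρ (n - a)).card * 16 ^ s ≤ X.card * (2 * (exts ρ (n - a)).card) := h2
        _ = _ := by ring
    have h4 : (16 : ℕ) ^ s = 4 ^ s * 4 ^ s := by rw [← mul_pow]; norm_num
    have h5 : 2 ≤ 4 ^ s := by
      calc 2 ≤ 4 ^ 1 := by norm_num
        _ ≤ 4 ^ s := Nat.pow_le_pow_right (by norm_num) hs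
    have h6 : 4 ^ s * 2 ≤ 4 ^ s * 4 ^ s := Nat.mul_le_mul_left _ h5
    omega
  obtain ⟨ρ', hρ', hno⟩ := hex
  obtain ⟨h1, h2, h3⟩ := mem_exts.1 hρ'
  refine ⟨ρ', h1, h2, h3, fun x hx => ?_⟩
  obtain ⟨U, hU1, hU2⟩ := exists_tree _ s hs ρ' (hno x hx)
  exact ⟨U, hU1, good_of_correct (hT x hx) hU2⟩

end Pool.Agent.Lib.MP_e81270_lc_LocalExt
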