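import Pool.Agent.Lib.MP_e81270_lc_LocalExt.Eval

/-!
# The lower bound
-/

namespace Pool.Agent.Lib.MP_e81270_lc_LocalExt

open Classical Finset

variable {n m : ℕ}

/-! ### Subformulas -/

/-- The set of subformulas. -/
noncomputable def subs : Fm n m → Finset (Fm n m)
  | .var w => {.var w}
  | .neg A => insert (.neg A) (subs A)
  | .or k f => insert (.or k f) (univ.biUnion fun i => subs (f i))

lemma card_subs (A : Fm n m) : (subs A).card ≤ A.size := by
  induction A with
  | var w => simp [subs, Fm.size]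
  | neg A ih =>
    simp only [subs, Fm.size]
    have := card_insert_le (Fm.neg A) (subs A)
    omega
  | or k f ih =>
    simp only [subs, Fm.size]
    have h1 := card_insert_le (Fm.or k f) (univ.biUnion fun i => subs (f i))
    have h2 : (univ.biUnion fun i => subs (f i)).card ≤ ∑ i, (f i).size :=
      card_biUnion_le.trans (sum_le_sum fun i _ => ih i)
    omega

lemma self_mem_subs (A : Fm n m) : A ∈ subs A := by
  cases A <;> simp [subs]

lemma neg_mem_subs {A B : Fm n m} (h : .neg B ∈ subs A) : B ∈ subs A := by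
  induction A with
  | var w => simp [subs] at h
  | neg A ih =>
    simp only [subs, mem_insert, Fm.neg.injEq] at h ⊢
    rcases h with rfl | h
    · exact Or.inr (self_mem_subs _)
    · exact Or.inr (ih h)
  | or k f ih =>
    simp only [subs, mem_insert, mem_biUnion, mem_univ, true_and] at h ⊢
    rcases h with h | ⟨i, hi⟩
    · cases h
    · exact Or.inr ⟨i, ih i hi⟩

lemma or_mem_subs {A : Fm n m} {k : ℕ} {g : Fin k → Fm n m} (h : .or k g ∈ subs A) (j : Fin k) :
    g j ∈ subs A := by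
  induction A with
  | var w => simp [subs] at h
  | neg A ih =>
    simp only [subs, mem_insert] at h ⊢
    rcases h with h | h
    · cases h
    · exact Or.inr (ih h)
  | or k' f ih =>
    simp only [subs, mem_insert, mem_biUnion, mem_univ, true_and] at h ⊢
    rcases h with h | ⟨i, hi⟩
    · cases h
      exact Or.inr ⟨j, self_mem_subs _⟩
    · exact Or.inr ⟨i, ih i hi⟩

lemma depth_subs {A B : Fm n m} (h : B ∈ subs A) : B.depth ≤ A.depth := by
  induction A with
  | var w => simp only [subs, mem_singleton] at h; rw [h]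
  | neg A ih =>
    simp only [subs, mem_insert] at h
    rcases h with rfl | h
    · exact le_rfl
    · exact ih h
  | or k f ih =>
    simp only [subs, mem_insert, mem_biUnion, mem_univ, true_and] at h
    rcases h with rfl | ⟨i, hi⟩
    · exact le_rfl
    · refine (ih i hi).trans ?_
      have : (f i).depth ≤ univ.sup fun i => (f i).depth :=
        Finset.le_sup (f := fun i => (f i).depth) (mem_univ i)
      simp only [Fm.depth]
      omega

/-- All subformulas of a sequence of lines. -/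
noncomputable def allSubs {N : ℕ} (C : Fin N → List (Fm n m)) : Finset (Fm n m) :=
  univ.biUnion fun i => (C i).toFinset.biUnion subs

lemma card_lineSubs (L : List (Fm n m)) :
    (L.toFinset.biUnion subs).card ≤ (L.map Fm.size).sum := by
  induction L with
  | nil => simp
  | cons A L ih =>
    rw [List.toFinset_cons, biUnion_insert]
    refine (card_union_le _ _).trans ?_
    simp only [List.map_cons, List.sum_cons]
    exact Nat.add_le_add (card_subs A) ih

lemma card_allSubs {N : ℕ} (C : Fin N → List (Fm n m)) : (allSubs C).card + N ≤ totalSize C := by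
  have h1 : (allSubs C).card ≤ ∑ i, ((C i).map Fm.size).sum :=
    card_biUnion_le.trans (sum_le_sum fun i _ => card_lineSubs (C i))
  have h2 : totalSize C = N + ∑ i, ((C i).map Fm.size).sum := by
    rw [totalSize, sum_add_distrib]; simp
  omega

lemma mem_allSubs {N : ℕ} {C : Fin N → List (Fm n m)} {A : Fm n m} :
    A ∈ allSubs C ↔ ∃ i, ∃ B ∈ C i, A ∈ subs B := by
  simp [allSubs]

/-! ### All rounds -/

/-- The number of free holes when `r` rounds are left. -/
def lv (s : ℕ) : ℕ → ℕ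
  | 0 => 8 * s
  | r + 1 => 16 * (lv s r) ^ 5

lemma le_lv (s r : ℕ) (hs : 1 ≤ s) : 8 * s ≤ lv s r := by
  induction r with
  | zero => exact le_rfl
  | succ r ih =>
    have h := arith_round ih hs
    simp only [lv]
    have := Nat.zero_le (64 * s * ((lv s r + 1) * (lv s r + 2)) * ((lv s r + 1) * lv s r))
    omega

lemma two_mul_lv (s r : ℕ) : 2 * lv s r = (16 * s) ^ (5 ^ r) := by
  induction r with
  | zero => simp only [lv, pow_zero, pow_one]; ring
  | succ r ih =>
    rw [pow_succ, pow_mul, ← ih]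
    simp only [lv]; ring

/-- The disjuncts of a disjunction. -/
def args : Fm n m → Set (Fm n m)
  | .or _ f => Set.range f
  | _ => ∅

theorem exists_table {N : ℕ} {C : Fin N → List (Fm n m)} {s : ℕ} (hs : 1 ≤ s)
    (t0 : Var n m → MT n) (ht0 : ∀ w, (t0 w).depth ≤ 2 * s) {d : ℕ}
    (hlv : lv s (d + 1) ≤ n) (hsize : totalSize C < 4 ^ s) {ρ₁ : Finset (Edge n)}
    (hρ₁ : IsM ρ₁) (hc₁ : ρ₁.card = n - lv s (d + 1)) :
    ∀ j ≤ d, ∃ (ρ : Finset (Edge n)) (t : Fm n m → MT n), IsM ρ ∧ ρ₁ ⊆ ρ ∧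
      ρ.card = n - lv s (d + 1 - j) ∧
      ∀ (k : ℕ) (f : Fin k → Fm n m), .or k f ∈ allSubs C → (Fm.or k f).depth ≤ j →
        (t (.or k f)).depth ≤ 2 * s ∧ Good (tr t0 t) ρ (Set.range f) (t (.or k f)) := by
  intro j
  induction j with
  | zero =>
    intro _
    refine ⟨ρ₁, fun _ => .leaf true, hρ₁, subset_rfl, hc₁, ?_⟩
    intro k f _ hd
    simp only [Fm.depth] at hd
    omega
  | succ j ih =>
    intro hj
    obtain ⟨ρ, t, hρ, hρρ, hc, ht⟩ := ih (by omega)
    -- depth of trees of formulas of depth ≤ j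
    have hdep : ∀ A ∈ allSubs C, A.depth ≤ j → (tr t0 t A).depth ≤ 2 * s := by
      intro A
      induction A with
      | var w => intro _ _; exact ht0 w
      | neg A ihA =>
        intro hA hd
        simp only [tr, depth_flip]
        apply ihA _ hd
        obtain ⟨i, B, hB, hAB⟩ := mem_allSubs.1 hA
        exact mem_allSubs.2 ⟨i, B, hB, neg_mem_subs hAB⟩
      | or k f _ =>
        intro hA hd
        exact (ht k f hA hd).1
    have e1 : lv s (d + 1 - j) = 16 * (lv s (d + 1 - (j + 1))) ^ 5 := by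
      have : d + 1 - j = (d + 1 - (j + 1)) + 1 := by omega
      rw [this]; rfl
    have hmono : ∀ r, lv s r ≤ lv s (r + 1) := by
      intro r
      have := arith_round (le_lv s r hs) hs
      simp only [lv]
      have := Nat.zero_le (64 * s * ((lv s r + 1) * (lv s r + 2)) * ((lv s r + 1) * lv s r))
      omega
    have hlej : lv s (d + 1 - j) ≤ n :=
      (monotone_nat_of_le_succ hmono (by omega)).trans hlv
    have hX : (allSubs C).card < 4 ^ s := by
      have := card_allSubs C
      omega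
    obtain ⟨ρ', hρ', hρρ', hc', hU⟩ := exists_round (T := tr t0 t) hρ hs (le_lv s _ hs)
      (by rw [← e1]; exact hlej) (by rw [← e1]; exact hc)
      ((allSubs C).filter fun A => A.depth ≤ j + 1) ((card_filter_le _ _).trans_lt hX) args
      (by
        intro x hx A hA
        obtain ⟨hx1, hx2⟩ := mem_filter.1 hx
        cases x with
        | var w => simp [args] at hA
        | neg B => simp [args] at hA
        | or k f =>
          obtain ⟨i, rfl⟩ := hA
          apply hdep
          · obtain ⟨i', B, hB, hAB⟩ := mem_allSubs.1 hx1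
            exact mem_allSubs.2 ⟨i', B, hB, or_mem_subs hAB i⟩
          · have : (f i).depth ≤ univ.sup fun i => (f i).depth :=
              Finset.le_sup (f := fun i => (f i).depth) (mem_univ i)
            simp only [Fm.depth] at hx2
            omega)
    let t' : Fm n m → MT n := fun A =>
      if A.depth ≤ j then t A else
        if h : A ∈ (allSubs C).filter (fun A => A.depth ≤ j + 1) then (hU A h).choose
        else .leaf true
    have htt : ∀ A : Fm n m, A.depth ≤ j → tr t0 t A = tr t0 t' A := by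
      intro A hA
      apply tr_congr _ A hA
      intro B hB
      simp only [t', if_pos hB]
    refine ⟨ρ', t', hρ', hρρ.trans hρρ', hc', ?_⟩
    intro k f hmem hd
    have hfd : ∀ i, (f i).depth ≤ j := by
      intro i
      have : (f i).depth ≤ univ.sup fun i => (f i).depth :=
        Finset.le_sup (f := fun i => (f i).depth) (mem_univ i)
      simp only [Fm.depth] at hd
      omega
    by_cases hdj : (Fm.or k f).depth ≤ j
    · obtain ⟨h1, h2⟩ := ht k f hmem hdj
      simp only [t', if_pos hdj]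
      refine ⟨h1, (h2.mono hρρ').congr ?_⟩
      rintro _ ⟨i, rfl⟩
      exact htt _ (hfd i)
    · have hm' : Fm.or k f ∈ (allSubs C).filter (fun A => A.depth ≤ j + 1) :=
        mem_filter.2 ⟨hmem, hd⟩
      obtain ⟨h1, h2⟩ := (hU _ hm').choose_spec
      simp only [t', if_neg hdj, dif_pos hm']
      refine ⟨h1, h2.congr ?_⟩
      rintro _ ⟨i, rfl⟩
      exact htt _ (hfd i)

/-! ### The adversary -/

/-- No extension of `M` makes the tree of `A` answer yes. -/
def FF (T : Fm n m → MT n) (A : Fm n m) (M : Finset (Edge n)) : Prop :=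
  ∀ M', IsM M' → M ⊆ M' → ¬ Runs (T A) M' true

lemma FF.mono {T : Fm n m → MT n} {A : Fm n m} {M M' : Finset (Edge n)} (h : FF T A M)
    (hs : M ⊆ M') : FF T A M' := fun M'' h1 h2 => h M'' h1 (hs.trans h2)

lemma ff_of_runs {T : Fm n m → MT n} {A : Fm n m} {M : Finset (Edge n)}
    (h : Runs (T A) M false) : FF T A M := by
  intro M' h1 h2 h3
  have := (h.mono h2).det h1 h3
  cases this

/-- The data used by the adversary. -/
structure Setting (D : Fin m → Fm n m) (supp : Fin m → Finset (Edge n)) (Q : Fin m → List (Vx n))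
    (ρ₁ ρ : Finset (Edge n)) (t : Fm n m → MT n) (h : ℕ) (S : Finset (Fm n m)) : Prop where
  isSupp : IsSupport D supp
  cov : Covers ρ₁ supp Q
  sub : ρ₁ ⊆ ρ
  isM : IsM ρ
  card : ρ.card + 4 * h ≤ n
  pos : 1 ≤ h
  neg : ∀ A, .neg A ∈ S → A ∈ S
  or : ∀ k f, .or k f ∈ S → ∀ i, f i ∈ S
  dep : ∀ A ∈ S, (tr (vtree D ρ₁ Q) t A).depth ≤ h
  good : ∀ k f, .or k f ∈ S → Good (tr (vtree D ρ₁ Q) t) ρ (Set.range f) (t (.or k f))

variable {D : Fin m → Fm n m} {supp : Fin m → Finset (Edge n)} {Q : Fin m → List (Vx n)}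
  {ρ₁ ρ : Finset (Edge n)} {t : Fm n m → MT n} {h : ℕ} {S : Finset (Fm n m)}

lemma runs_neg {t0 : Var n m → MT n} {A : Fm n m} {M : Finset (Edge n)} {b : Bool} :
    Runs (tr t0 t (.neg A)) M b ↔ Runs (tr t0 t A) M (!b) := runs_flip _ _ _

/-- When a matching decides the support of an extension variable, the trees of all formulas with
that support agree with their truth values. -/
theorem consistent (st : Setting D supp Q ρ₁ ρ t h S) {M₀ : Finset (Edge n)} (_hM₀ : IsM M₀)
    (hρM : ρ ⊆ M₀) (hc : M₀.card + 2 * h ≤ n) {X : Finset (Edge n)}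
    (hX : ∀ M', IsM M' → M₀ ⊆ M' → ∀ e ∈ X, e ∈ M' → e ∈ M₀) (B : Fm n m) :
    B ∈ S → (∀ e, B.Occurs (.inl e) → e ∈ X) → (∀ j, B.Occurs (.inr j) → supp j ⊆ X) →
      ∀ M'' b, IsM M'' → M₀ ⊆ M'' → Runs (tr (vtree D ρ₁ Q) t B) M'' b →
        (b = true ↔ sem (· ∈ M₀) (zval D (· ∈ M₀)) B) := by
  induction B with
  | var w =>
    intro _ h1 h2 M'' b hM'' hs hr
    cases w with
    | inl e =>
      have h3 := vtree_edge hM'' (show Runs (vtree D ρ₁ Q (.inl e)) M'' b from hr)
      rw [h3]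
      exact ⟨fun h => hX M'' hM'' hs e (h1 e rfl) h, fun h => hs h⟩
    | inr j =>
      have h3 := vtree_ext st.isSupp st.cov hM'' (st.sub.trans (hρM.trans hs))
        (show Runs (vtree D ρ₁ Q (.inr j)) M'' b from hr)
      rw [h3]
      apply zval_local st.isSupp
      intro e he
      exact ⟨fun h => hX M'' hM'' hs e (h2 j rfl he) h, fun h => hs h⟩
  | neg A ih =>
    intro hS h1 h2 M'' b hM'' hs hr
    have h3 := ih (st.neg A hS) h1 h2 M'' (!b) hM'' hs (runs_neg.1 hr)
    simp only [sem]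
    rw [← h3]
    cases b <;> simp
  | or k f ih =>
    intro hS h1 h2 M'' b hM'' hs hr
    have hg := st.good k f hS
    cases b with
    | true =>
      obtain ⟨A, ⟨i, rfl⟩, hrA⟩ := (hg M'' hM'' (hρM.trans hs)).1 hr
      have h3 := ih i (st.or k f hS i) (fun e he => h1 e ⟨i, he⟩) (fun j hj => h2 j ⟨i, hj⟩)
        M'' true hM'' hs hrA
      exact ⟨fun _ => ⟨i, h3.1 rfl⟩, fun _ => rfl⟩
    | false =>
      refine ⟨fun h => (by cases h), ?_⟩
      rintro ⟨i, hi⟩
      exfalso
      obtain ⟨σ, hσ, hσc, hrσ⟩ := hr.path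
      have hσh : σ.card ≤ h := hσc.trans (st.dep _ hS)
      have hs1 : M₀ ∪ σ ⊆ M'' := union_subset hs hσ
      have hM1 : IsM (M₀ ∪ σ) := hM''.mono hs1
      have hc1 := card_union_le M₀ σ
      have hdi := st.dep _ (st.or k f hS i)
      obtain ⟨M₂, h12, hM₂, _, b', hr'⟩ := exists_runs (tr (vtree D ρ₁ Q) t (f i)) hM1 (by omega)
      have hρ2 : ρ ⊆ M₀ ∪ σ := hρM.trans subset_union_left
      have hno := (hg (M₀ ∪ σ) hM1 hρ2).2 (hrσ.mono subset_union_right) M₂ hM₂ h12 (f i) ⟨i, rfl⟩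
      have h3 := ih i (st.or k f hS i) (fun e he => h1 e ⟨i, he⟩) (fun j hj => h2 j ⟨i, hj⟩)
        M₂ b' hM₂ (subset_union_left.trans h12) hr'
      have h4 : b' = true := h3.2 hi
      subst h4
      exact hno hr'

theorem no_forced (st : Setting D supp Q ρ₁ ρ t h S) {N : ℕ} {C : Fin N → List (Fm n m)}
    (hC : ∀ i, Step D {Γ | ∃ s < i, C s = Γ} (C i)) (hS : ∀ i, ∀ A ∈ C i, A ∈ S)
    (hline : ∀ i, ∃ U : MT n, U.depth ≤ h ∧
      Good (tr (vtree D ρ₁ Q) t) ρ {A | A ∈ C i} U) :
    ∀ i : Fin N, ∀ M, IsM M → ρ ⊆ M → M.card + h ≤ n →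
      ¬ ∀ A ∈ C i, FF (tr (vtree D ρ₁ Q) t) A M := by
  intro i
  induction i using WellFoundedLT.induction with
  | _ i ih =>
  intro M hM hρM hc hall
  have hcard := st.card
  have hpos := st.pos
  -- shrink the matching
  obtain ⟨U, hU1, hU2⟩ := hline i
  obtain ⟨M', hMM', hM', hc', b, hr⟩ := exists_runs U hM (by omega)
  have hb : b = false := by
    cases b with
    | false => rfl
    | true =>
      obtain ⟨A, hA, hrA⟩ := (hU2 M' hM' (hρM.trans hMM')).1 hr
      exact absurd hrA (hall A hA M' hM' hMM')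
  subst hb
  obtain ⟨σ, hσ, hσc, hrσ⟩ := hr.path
  obtain ⟨M₁, hM₁def⟩ : ∃ M₁, M₁ = ρ ∪ σ := ⟨_, rfl⟩
  have hM₁s : M₁ ⊆ M' := by rw [hM₁def]; exact union_subset (hρM.trans hMM') hσ
  have hM₁ : IsM M₁ := hM'.mono hM₁s
  have hρ₁ : ρ ⊆ M₁ := by rw [hM₁def]; exact subset_union_left
  have hc₁ : M₁.card ≤ ρ.card + h := by
    rw [hM₁def]
    have := card_union_le ρ σ
    omega
  have hall₁ : ∀ A ∈ C i, FF (tr (vtree D ρ₁ Q) t) A M₁ := by
    intro A hA M'' h1 h2
    refine (hU2 M₁ hM₁ hρ₁).2 (hrσ.mono ?_) M'' h1 h2 A hA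
    rw [hM₁def]; exact subset_union_right
  clear hall hrσ hσc hσ hr hc' hM₁s hM' hMM' hU1 hU2 hc hρM hM hM₁def
  -- running a tree
  have run : ∀ A ∈ S, ∀ M, IsM M → M.card + h ≤ n → ∃ M', M ⊆ M' ∧ IsM M' ∧
      M'.card ≤ M.card + h ∧ ∃ b, Runs (tr (vtree D ρ₁ Q) t A) M' b := by
    intro A hA M hM hc
    have hd := st.dep A hA
    obtain ⟨M', h1, h2, h3, b, h4⟩ := exists_runs (tr (vtree D ρ₁ Q) t A) hM (by omega)
    exact ⟨M', h1, h2, by omega, b, h4⟩
  have ih' : ∀ Γ, (∃ s < i, C s = Γ) → (∀ A ∈ Γ, A ∈ S) ∧ ∀ M, IsM M → ρ ⊆ M → M.card + h ≤ n →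
      ¬ ∀ A ∈ Γ, FF (tr (vtree D ρ₁ Q) t) A M := by
    rintro Γ ⟨s, hs, rfl⟩
    exact ⟨hS s, ih s hs⟩
  have hSi := hS i
  have hstep := hC i
  clear ih hline
  generalize C i = L at hstep hSi hall₁
  cases hstep with
  | pigeon p =>
    obtain ⟨e, he, hM₂⟩ := exists_extend hM₁ (by omega) (.inl p)
    refine hall₁ (.var (.inl e)) ?_ (insert e M₁) hM₂ (subset_insert _ _)
      (vtree_edge_true (mem_insert_self _ _))
    rw [List.mem_ofFn]
    refine ⟨e.2, ?_⟩
    have : e = (p, e.2) := Prod.ext he rfl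
    rw [← this]
  | hole q =>
    obtain ⟨e, he, hM₂⟩ := exists_extend hM₁ (by omega) (.inr q)
    refine hall₁ (.var (.inl e)) ?_ (insert e M₁) hM₂ (subset_insert _ _)
      (vtree_edge_true (mem_insert_self _ _))
    rw [List.mem_ofFn]
    refine ⟨e.1, ?_⟩
    have : e = (e.1, q) := Prod.ext rfl he
    rw [← this]
  | excl e f hne hsh =>
    have hA := hall₁ (.neg (.var (.inl e))) (by simp)
    have hB := hall₁ (.neg (.var (.inl f))) (by simp)
    have hAS : .var (.inl e) ∈ S := st.neg _ (hSi _ (by simp))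
    have hBS : .var (.inl f) ∈ S := st.neg _ (hSi _ (by simp))
    obtain ⟨M₂, h12, hM₂, hc₂, b, hr⟩ := run _ hAS M₁ hM₁ (by omega)
    have hb : b = true := by
      cases b with
      | true => rfl
      | false => exact absurd (runs_neg.2 hr) (hA M₂ hM₂ h12)
    obtain ⟨M₃, h23, hM₃, hc₃, b', hr'⟩ := run _ hBS M₂ hM₂ (by omega)
    have hb' : b' = true := by
      cases b' with
      | true => rfl
      | false => exact absurd (runs_neg.2 hr') (hB M₃ hM₃ (h12.trans h23))
    have he : e ∈ M₂ := (vtree_edge hM₂ hr).1 hb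
    have hf : f ∈ M₃ := (vtree_edge hM₃ hr').1 hb'
    exact hne (hM₃ e (h23 he) f hf hsh)
  | extLeft j =>
    have hA := hall₁ (.neg (.var (.inr j))) (by simp)
    have hB := hall₁ (D j) (by simp)
    have hAS : .var (.inr j) ∈ S := st.neg _ (hSi _ (by simp))
    have hBS : D j ∈ S := hSi _ (by simp)
    obtain ⟨M₂, h12, hM₂, hc₂, b, hr⟩ := run _ hAS M₁ hM₁ (by omega)
    have hb : b = true := by
      cases b with
      | true => rfl
      | false => exact absurd (runs_neg.2 hr) (hA M₂ hM₂ h12)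
    have hρ₂ : ρ ⊆ M₂ := hρ₁.trans h12
    have hz := (vtree_ext st.isSupp st.cov hM₂ (st.sub.trans hρ₂) hr).1 hb
    rw [zval_iff st.isSupp] at hz
    obtain ⟨M₃, h23, hM₃, hc₃, b', hr'⟩ := run _ hBS M₂ hM₂ (by omega)
    have hcons := consistent st hM₂ hρ₂ (by omega) (X := supp j)
      (fun M' h1 h2 => decided st.cov (st.sub.trans hρ₂) (vtree_cov hr) h1 h2) (D j) hBS
      ((st.isSupp j).1) (fun k hk => ((st.isSupp j).2 k hk).2) M₃ b' hM₃ h23 hr'
    have hb' := hcons.2 hz
    subst hb'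
    exact hB M₃ hM₃ (h12.trans h23) hr'
  | extRight j =>
    have hA := hall₁ (.var (.inr j)) (by simp)
    have hB := hall₁ (.neg (D j)) (by simp)
    have hAS : .var (.inr j) ∈ S := hSi _ (by simp)
    have hBS : D j ∈ S := st.neg _ (hSi _ (by simp))
    obtain ⟨M₂, h12, hM₂, hc₂, b, hr⟩ := run _ hAS M₁ hM₁ (by omega)
    have hb : ¬ b = true := by
      intro hb
      subst hb
      exact hA M₂ hM₂ h12 hr
    have hρ₂ : ρ ⊆ M₂ := hρ₁.trans h12
    have hz := (not_congr (vtree_ext st.isSupp st.cov hM₂ (st.sub.trans hρ₂) hr)).1 hb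
    rw [zval_iff st.isSupp] at hz
    obtain ⟨M₃, h23, hM₃, hc₃, b', hr'⟩ := run _ hBS M₂ hM₂ (by omega)
    have hcons := consistent st hM₂ hρ₂ (by omega) (X := supp j)
      (fun M' h1 h2 => decided st.cov (st.sub.trans hρ₂) (vtree_cov hr) h1 h2) (D j) hBS
      ((st.isSupp j).1) (fun k hk => ((st.isSupp j).2 k hk).2) M₃ b' hM₃ h23 hr'
    cases b' with
    | true => exact hz (hcons.1 rfl)
    | false => exact hB M₃ hM₃ (h12.trans h23) (runs_neg.2 hr')
  | middle A =>
    have hA := hall₁ A (by simp)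
    have hB := hall₁ (.neg A) (by simp)
    obtain ⟨M₂, h12, hM₂, hc₂, b, hr⟩ := run _ (hSi A (by simp)) M₁ hM₁ (by omega)
    cases b with
    | true => exact hA M₂ hM₂ h12 hr
    | false => exact hB M₂ hM₂ h12 (runs_neg.2 hr)
  | weak hΓ hsub =>
    exact (ih' _ hΓ).2 M₁ hM₁ hρ₁ (by omega) fun A hA => hall₁ A (hsub hA)
  | @cut A _ h1 h2 =>
    have hAS : A ∈ S := (ih' _ h1).1 A (by simp)
    obtain ⟨M₂, h12, hM₂, hc₂, b, hr⟩ := run _ hAS M₁ hM₁ (by omega)
    cases b with
    | true =>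
      refine (ih' _ h2).2 M₂ hM₂ (hρ₁.trans h12) (by omega) fun B hB => ?_
      rcases List.mem_cons.1 hB with rfl | hB
      · exact ff_of_runs (runs_neg.2 hr)
      · exact (hall₁ B hB).mono h12
    | false =>
      refine (ih' _ h1).2 M₂ hM₂ (hρ₁.trans h12) (by omega) fun B hB => ?_
      rcases List.mem_cons.1 hB with rfl | hB
      · exact ff_of_runs hr
      · exact (hall₁ B hB).mono h12
  | @orIntro k f Γ j h1 =>
    have hAS : .or k f ∈ S := hSi _ (by simp)
    obtain ⟨M₂, h12, hM₂, hc₂, b, hr⟩ := run _ hAS M₁ hM₁ (by omega)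
    have hb : b = false := by
      cases b with
      | false => rfl
      | true => exact absurd hr (hall₁ _ (by simp) M₂ hM₂ h12)
    subst hb
    refine (ih' _ h1).2 M₂ hM₂ (hρ₁.trans h12) (by omega) fun B hB => ?_
    rcases List.mem_cons.1 hB with rfl | hB
    · intro M₃ hM₃ h23
      exact (st.good k f hAS M₂ hM₂ (hρ₁.trans h12)).2 hr M₃ hM₃ h23 _ ⟨j, rfl⟩
    · exact (hall₁ B (by simp [hB])).mono h12
  | @norIntro k f Γ h1 =>
    have hAS : .or k f ∈ S := st.neg _ (hSi _ (by simp))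
    obtain ⟨M₂, h12, hM₂, hc₂, b, hr⟩ := run _ hAS M₁ hM₁ (by omega)
    have hb : b = true := by
      cases b with
      | true => rfl
      | false => exact absurd (runs_neg.2 hr) (hall₁ (.neg (.or k f)) (by simp) M₂ hM₂ h12)
    subst hb
    obtain ⟨_, ⟨j, rfl⟩, hrj⟩ := (st.good k f hAS M₂ hM₂ (hρ₁.trans h12)).1 hr
    refine (ih' _ (h1 j)).2 M₂ hM₂ (hρ₁.trans h12) (by omega) fun B hB => ?_
    rcases List.mem_cons.1 hB with rfl | hB
    · exact ff_of_runs (runs_neg.2 hrj)
    · exact (hall₁ B (by simp [hB])).mono h12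
  | @dneg A Γ h1 =>
    refine (ih' _ h1).2 M₁ hM₁ hρ₁ (by omega) fun B hB => ?_
    rcases List.mem_cons.1 hB with rfl | hB
    · intro M₂ hM₂ h12 hr
      exact hall₁ (.neg (.neg B)) (by simp) M₂ hM₂ h12 (runs_neg.2 (runs_neg.2 hr))
    · exact hall₁ B (by simp [hB])

/-- The lower bound, in terms of the numbers of free holes. -/
theorem lower_bound_nat {d N κ s : ℕ} (hs : 1 ≤ s) {C : Fin N → List (Fm n m)}
    (hS : IsSupport D supp) (hκ : ∀ i, (supp i).card ≤ κ) (hR : IsRefutation D C)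
    (hd : ∀ i, ∀ A ∈ C i, A.depth ≤ d) (hlv : lv s (d + 1) ≤ n)
    (hpar : 4 * ((lv s (d + 1) + 1) * lv s (d + 1) * κ) ≤ (n + 1) * n) :
    4 ^ s ≤ m + totalSize C := by
  by_contra hcon
  push Not at hcon
  have h8 := le_lv s (d + 1) hs
  obtain ⟨ρ₁, hρ₁, hc₁, hthin⟩ := exists_first supp (s := s) hκ (by omega) hlv hpar (by omega)
  have hQex := fun i => exists_cover (hthin i)
  choose Q hQ1 hQ2 using hQex
  have hQ : Covers ρ₁ supp Q := hQ2
  have ht0 : ∀ w, (vtree D ρ₁ Q w).depth ≤ 2 * s := vtree_depth (by omega) hQ1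
  obtain ⟨ρ, t, hρ, hρρ, hc, ht⟩ := exists_table (C := C) hs (vtree D ρ₁ Q) ht0 hlv (by omega)
    hρ₁ hc₁ d le_rfl
  have hdepth : ∀ A ∈ allSubs C, A.depth ≤ d := by
    intro A hA
    obtain ⟨i, B, hB, hAB⟩ := mem_allSubs.1 hA
    exact (depth_subs hAB).trans (hd i B hB)
  have hneg : ∀ A, .neg A ∈ allSubs C → A ∈ allSubs C := by
    intro A hA
    obtain ⟨i, B, hB, hAB⟩ := mem_allSubs.1 hA
    exact mem_allSubs.2 ⟨i, B, hB, neg_mem_subs hAB⟩
  have hor : ∀ k f, .or k f ∈ allSubs C → ∀ j, f j ∈ allSubs C := by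
    intro k f hA j
    obtain ⟨i, B, hB, hAB⟩ := mem_allSubs.1 hA
    exact mem_allSubs.2 ⟨i, B, hB, or_mem_subs hAB j⟩
  have hdep : ∀ A ∈ allSubs C, (tr (vtree D ρ₁ Q) t A).depth ≤ 2 * s := by
    intro A
    induction A with
    | var w => intro _; exact ht0 w
    | neg A ih => intro hA; simp only [tr, depth_flip]; exact ih (hneg A hA)
    | or k f _ => intro hA; exact (ht k f hA (hdepth _ hA)).1
  have hmem : ∀ i, ∀ A ∈ C i, A ∈ allSubs C := fun i A hA =>
    mem_allSubs.2 ⟨i, A, hA, self_mem_subs A⟩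
  have e1 : d + 1 - d = 0 + 1 := by omega
  have e2 : lv s (d + 1 - d) = 16 * (lv s 0) ^ 5 := by rw [e1]; rfl
  have hmono : ∀ r, lv s r ≤ lv s (r + 1) := by
    intro r
    have := arith_round (le_lv s r hs) hs
    simp only [lv]
    have := Nat.zero_le (64 * s * ((lv s r + 1) * (lv s r + 2)) * ((lv s r + 1) * lv s r))
    omega
  have hle1 : lv s (d + 1 - d) ≤ n := (monotone_nat_of_le_succ hmono (by omega)).trans hlv
  have hle0 : lv s 0 ≤ n := (monotone_nat_of_le_succ hmono (by omega)).trans hlv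
  have hsz := card_allSubs C
  obtain ⟨ρ', hρ', hρρ', hc', hU⟩ := exists_round (T := tr (vtree D ρ₁ Q) t) hρ hs (le_lv s 0 hs)
    (by rw [← e2]; exact hle1) (by rw [← e2]; exact hc) (univ : Finset (Fin N))
    (by rw [card_univ, Fintype.card_fin]; omega) (fun i => {A | A ∈ C i})
    (fun i _ A hA => hdep A (hmem i A hA))
  have hl0 : lv s 0 = 8 * s := rfl
  have st : Setting D supp Q ρ₁ ρ' t (2 * s) (allSubs C) :=
    { isSupp := hS
      cov := hQ
      sub := hρρ.trans hρρ'
      isM := hρ'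
      card := by rw [hc']; omega
      pos := by omega
      neg := hneg
      or := hor
      dep := hdep
      good := fun k f hA => ((ht k f hA (hdepth _ hA)).2).mono hρρ' }
  obtain ⟨hsteps, i, hi⟩ := hR
  refine no_forced st hsteps hmem (fun i => hU i (mem_univ i)) i ρ' hρ' subset_rfl ?_ ?_
  · rw [hc']; omega
  · rw [hi]; simp

end Pool.Agent.Lib.MP_e81270_lc_LocalExt
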