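import Pool.Agent.Lib.MP_e81270_lc_LocalExt.Defs

/-!
# Partial matchings and matching decision trees
-/

namespace Pool.Agent.Lib.MP_e81270_lc_LocalExt

variable {n : ℕ}

/-- Vertices: pigeons and holes. -/
abbrev Vx (n : ℕ) := Fin (n + 1) ⊕ Fin n

/-- The edge `e` is incident to the vertex `v`. -/
def inc (e : Edge n) : Vx n → Prop
  | .inl p => e.1 = p
  | .inr h => e.2 = h

/-- A set of edges is a partial matching. -/
def IsM (M : Finset (Edge n)) : Prop :=
  ∀ e ∈ M, ∀ f ∈ M, e.1 = f.1 ∨ e.2 = f.2 → e = f

lemma IsM.mono {M M' : Finset (Edge n)} (h : IsM M') (hs : M ⊆ M') : IsM M :=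
  fun e he f hf hef => h e (hs he) f (hs hf) hef

lemma isM_empty : IsM (∅ : Finset (Edge n)) := by
  intro e he; simp at he

lemma IsM.eq_of_inc {M : Finset (Edge n)} (hM : IsM M) {e f : Edge n} (he : e ∈ M) (hf : f ∈ M)
    {v : Vx n} (h1 : inc e v) (h2 : inc f v) : e = f := by
  apply hM e he f hf
  cases v with
  | inl p => left; simp only [inc] at h1 h2; rw [h1, h2]
  | inr h => right; simp only [inc] at h1 h2; rw [h1, h2]

/-- The vertex `v` is covered by `M`. -/
def Cov (M : Finset (Edge n)) (v : Vx n) : Prop := ∃ e ∈ M, inc e v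

lemma IsM.card_fst {M : Finset (Edge n)} (hM : IsM M) : (M.image Prod.fst).card = M.card :=
  Finset.card_image_of_injOn fun e he f hf h => hM e he f hf (Or.inl h)

lemma IsM.card_snd {M : Finset (Edge n)} (hM : IsM M) : (M.image Prod.snd).card = M.card :=
  Finset.card_image_of_injOn fun e he f hf h => hM e he f hf (Or.inr h)

lemma IsM.card_le {M : Finset (Edge n)} (hM : IsM M) : M.card ≤ n := by
  rw [← hM.card_snd]
  exact (Finset.card_le_univ _).trans (by simp)

lemma isM_insert {M : Finset (Edge n)} (hM : IsM M) {e : Edge n}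
    (h1 : ∀ f ∈ M, f.1 ≠ e.1) (h2 : ∀ f ∈ M, f.2 ≠ e.2) : IsM (insert e M) := by
  intro a ha b hb hab
  rw [Finset.mem_insert] at ha hb
  rcases ha with rfl | ha <;> rcases hb with rfl | hb
  · rfl
  · rcases hab with h | h
    · exact absurd h.symm (h1 b hb)
    · exact absurd h.symm (h2 b hb)
  · rcases hab with h | h
    · exact absurd h (h1 a ha)
    · exact absurd h (h2 a ha)
  · exact hM a ha b hb hab

lemma exists_extend {M : Finset (Edge n)} (hM : IsM M) (hc : M.card < n) (v : Vx n) :
    ∃ e, inc e v ∧ IsM (insert e M) := by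
  classical
  by_cases hv : Cov M v
  · obtain ⟨e, he, hev⟩ := hv
    exact ⟨e, hev, by rwa [Finset.insert_eq_of_mem he]⟩
  have hole : ∃ h : Fin n, ∀ f ∈ M, f.2 ≠ h := by
    by_contra hcon
    push Not at hcon
    have : (Finset.univ : Finset (Fin n)) ⊆ M.image Prod.snd := by
      intro h _
      obtain ⟨f, hf, hfh⟩ := hcon h
      exact Finset.mem_image.2 ⟨f, hf, hfh⟩
    have := Finset.card_le_card this
    rw [hM.card_snd, Finset.card_univ, Fintype.card_fin] at this
    omega
  have pig : ∃ p : Fin (n + 1), ∀ f ∈ M, f.1 ≠ p := by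
    by_contra hcon
    push Not at hcon
    have : (Finset.univ : Finset (Fin (n + 1))) ⊆ M.image Prod.fst := by
      intro h _
      obtain ⟨f, hf, hfh⟩ := hcon h
      exact Finset.mem_image.2 ⟨f, hf, hfh⟩
    have := Finset.card_le_card this
    rw [hM.card_fst, Finset.card_univ, Fintype.card_fin] at this
    omega
  cases v with
  | inl p =>
    obtain ⟨h, hh⟩ := hole
    refine ⟨(p, h), rfl, isM_insert hM ?_ hh⟩
    intro f hf hfp
    exact hv ⟨f, hf, hfp⟩
  | inr h =>
    obtain ⟨p, hp⟩ := pig
    refine ⟨(p, h), rfl, isM_insert hM hp ?_⟩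
    intro f hf hfp
    exact hv ⟨f, hf, hfp⟩

/-- Matching decision trees: a node queries the edge at a vertex. -/
inductive MT (n : ℕ) : Type
  | leaf : Bool → MT n
  | node : Vx n → (Edge n → MT n) → MT n

/-- Number of queries in the worst case. -/
def MT.depth : MT n → ℕ
  | .leaf _ => 0
  | .node _ c => 1 + Finset.univ.sup fun e => (c e).depth

/-- The tree answers `b` on the matching `M`, all queried vertices being covered. -/
def Runs : MT n → Finset (Edge n) → Bool → Prop
  | .leaf b', _, b => b' = b
  | .node v c, M, b => ∃ e ∈ M, inc e v ∧ Runs (c e) M b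

/-- Exchange the answers. -/
def MT.flip : MT n → MT n
  | .leaf b => .leaf (!b)
  | .node v c => .node v fun e => (c e).flip

lemma depth_flip (T : MT n) : T.flip.depth = T.depth := by
  induction T with
  | leaf b => rfl
  | node v c ih => simp [MT.flip, MT.depth, ih]

lemma runs_flip (T : MT n) (M : Finset (Edge n)) (b : Bool) :
    Runs T.flip M b ↔ Runs T M (!b) := by
  induction T with
  | leaf b' => cases b' <;> cases b <;> simp [MT.flip, Runs]
  | node v c ih => simp [MT.flip, Runs, ih]

lemma Runs.mono {T : MT n} {M M' : Finset (Edge n)} {b : Bool} (h : Runs T M b) (hs : M ⊆ M') :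
    Runs T M' b := by
  induction T with
  | leaf b' => exact h
  | node v c ih =>
    obtain ⟨e, he, hev, hr⟩ := h
    exact ⟨e, hs he, hev, ih e hr⟩

lemma Runs.det {T : MT n} {M : Finset (Edge n)} (hM : IsM M) {b b' : Bool} (h : Runs T M b)
    (h' : Runs T M b') : b = b' := by
  induction T with
  | leaf b'' => exact (h.symm.trans h' : b = b')
  | node v c ih =>
    obtain ⟨e, he, hev, hr⟩ := h
    obtain ⟨f, hf, hfv, hr'⟩ := h'
    obtain rfl := hM.eq_of_inc he hf hev hfv
    exact ih e hr hr'

lemma Runs.path {T : MT n} {M : Finset (Edge n)} {b : Bool} (h : Runs T M b) :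
    ∃ σ ⊆ M, σ.card ≤ T.depth ∧ Runs T σ b := by
  classical
  induction T with
  | leaf b' => exact ⟨∅, by simp, by simp, h⟩
  | node v c ih =>
    obtain ⟨e, he, hev, hr⟩ := h
    obtain ⟨σ, hσ, hc, hr'⟩ := ih e hr
    refine ⟨insert e σ, ?_, ?_, e, Finset.mem_insert_self _ _, hev,
      hr'.mono (Finset.subset_insert _ _)⟩
    · intro x hx
      rcases Finset.mem_insert.1 hx with rfl | hx
      · exact he
      · exact hσ hx
    · have h1 : (c e).depth ≤ Finset.univ.sup fun e => (c e).depth :=
        Finset.le_sup (f := fun e => (c e).depth) (Finset.mem_univ e)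
      have h2 := Finset.card_insert_le e σ
      simp only [MT.depth]
      omega

lemma exists_runs (T : MT n) {M : Finset (Edge n)} (hM : IsM M) (hc : M.card + T.depth ≤ n) :
    ∃ M', M ⊆ M' ∧ IsM M' ∧ M'.card ≤ M.card + T.depth ∧ ∃ b, Runs T M' b := by
  classical
  induction T generalizing M with
  | leaf b => exact ⟨M, subset_rfl, hM, by simp, b, rfl⟩
  | node v c ih =>
    simp only [MT.depth] at hc ⊢
    obtain ⟨e, hev, hM1⟩ := exists_extend hM (by omega) v
    have h1 : (c e).depth ≤ Finset.univ.sup fun e => (c e).depth :=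
      Finset.le_sup (f := fun e => (c e).depth) (Finset.mem_univ e)
    have h2 := Finset.card_insert_le e M
    obtain ⟨M', hs, hM', hc', b, hr⟩ := ih e hM1 (by omega)
    exact ⟨M', (Finset.subset_insert _ _).trans hs, hM', by omega, b, e,
      hs (Finset.mem_insert_self _ _), hev, hr⟩

/-- Query all vertices in the list, collecting the answers in `acc`, then continue with `k`. -/
def queryAll (k : Finset (Edge n) → MT n) : List (Vx n) → Finset (Edge n) → MT n
  | [], acc => k acc
  | v :: vs, acc => .node v fun e => queryAll k vs (insert e acc)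

lemma depth_queryAll (k : Finset (Edge n) → MT n) (D : ℕ) (hk : ∀ acc, (k acc).depth ≤ D)
    (vs : List (Vx n)) (acc : Finset (Edge n)) : (queryAll k vs acc).depth ≤ vs.length + D := by
  induction vs generalizing acc with
  | nil => simpa [queryAll] using hk acc
  | cons v vs ih =>
    simp only [queryAll, MT.depth, List.length_cons]
    have : (Finset.univ.sup fun e => (queryAll k vs (insert e acc)).depth) ≤ vs.length + D :=
      Finset.sup_le fun e _ => ih _
    omega

lemma Runs.queryAll {k : Finset (Edge n) → MT n} {vs : List (Vx n)} {acc M : Finset (Edge n)}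
    {b : Bool} (h : Runs (queryAll k vs acc) M b) :
    ∃ acc', acc ⊆ acc' ∧ acc' ⊆ acc ∪ M ∧ (∀ v ∈ vs, ∃ e ∈ acc' ∩ M, inc e v) ∧
      (∀ e ∈ acc', e ∈ acc ∨ ∃ v ∈ vs, inc e v) ∧ Runs (k acc') M b := by
  classical
  induction vs generalizing acc with
  | nil =>
    exact ⟨acc, subset_rfl, Finset.subset_union_left, by simp, fun e he => Or.inl he, h⟩
  | cons v vs ih =>
    obtain ⟨e, he, hev, hr⟩ := h
    obtain ⟨acc', h1, h2, h3, h4, h5⟩ := ih hr
    refine ⟨acc', (Finset.subset_insert _ _).trans h1, ?_, ?_, ?_, h5⟩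
    · intro x hx
      have := h2 hx
      simp only [Finset.mem_union, Finset.mem_insert] at this ⊢
      rcases this with (rfl | h) | h
      · exact Or.inr he
      · exact Or.inl h
      · exact Or.inr h
    · intro w hw
      rcases List.mem_cons.1 hw with rfl | hw
      · exact ⟨e, Finset.mem_inter.2 ⟨h1 (Finset.mem_insert_self _ _), he⟩, hev⟩
      · exact h3 w hw
    · intro x hx
      rcases h4 x hx with h | ⟨w, hw, hxw⟩
      · rcases Finset.mem_insert.1 h with rfl | h
        · exact Or.inr ⟨v, List.mem_cons_self, hev⟩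
        · exact Or.inl h
      · exact Or.inr ⟨w, List.mem_cons_of_mem _ hw, hxw⟩

end Pool.Agent.Lib.MP_e81270_lc_LocalExt
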