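import Pool.Agent.Lib.MP_e81270_lc_LocalExt.Switching

/-!
# A first matching which makes all supports thin
-/

namespace Pool.Agent.Lib.MP_e81270_lc_LocalExt

open Classical Finset

variable {n : ℕ}

lemma choose_ratio {N a k : ℕ} (hk : k ≤ a) (ha : a ≤ N) :
    (N - k).choose (a - k) * N ^ k ≤ N.choose a * a ^ k := by
  induction k with
  | zero => simp
  | succ k ih =>
    have h1 := ih (by omega)
    obtain ⟨N', hN⟩ : ∃ N', N - k = N' + 1 := ⟨N - k - 1, by omega⟩
    obtain ⟨a', ha'⟩ : ∃ a', a - k = a' + 1 := ⟨a - k - 1, by omega⟩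
    have h2 : N - (k + 1) = N' := by omega
    have h3 : a - (k + 1) = a' := by omega
    rw [h2, h3]
    have h4 := Nat.add_one_mul_choose_eq N' a'
    rw [hN, ha'] at h1
    have hNk : N = N' + 1 + k := by omega
    have hak : a = a' + 1 + k := by omega
    have hle : a' ≤ N' := by omega
    have h5 : (a' + 1) * N ≤ a * (N' + 1) := by
      rw [hNk, hak]
      nlinarith [Nat.mul_le_mul_right k hle]
    have h6 : N'.choose a' * N ≤ (N' + 1).choose (a' + 1) * a := by
      apply Nat.le_of_mul_le_mul_right (c := N' + 1) _ (by omega)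
      calc N'.choose a' * N * (N' + 1) = ((N' + 1) * N'.choose a') * N := by ring
        _ = (N' + 1).choose (a' + 1) * ((a' + 1) * N) := by rw [h4]; ring
        _ ≤ (N' + 1).choose (a' + 1) * (a * (N' + 1)) := Nat.mul_le_mul_left _ h5
        _ = (N' + 1).choose (a' + 1) * a * (N' + 1) := by ring
    calc N'.choose a' * N ^ (k + 1) = (N'.choose a' * N) * N ^ k := by ring
      _ ≤ ((N' + 1).choose (a' + 1) * a) * N ^ k := Nat.mul_le_mul_right _ h6
      _ = ((N' + 1).choose (a' + 1) * N ^ k) * a := by ring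
      _ ≤ (N.choose a * a ^ k) * a := Nat.mul_le_mul_right _ h1
      _ = N.choose a * a ^ (k + 1) := by ring

lemma card_superset {α : Type*} [Fintype α] (S : Finset α) {a : ℕ}
    (ha : a ≤ Fintype.card α) :
    (((univ : Finset α).powersetCard a).filter fun A => S ⊆ A).card * Fintype.card α ^ S.card ≤
      (Fintype.card α).choose a * a ^ S.card := by
  by_cases hk : S.card ≤ a
  · refine le_trans (Nat.mul_le_mul_right _ ?_) (choose_ratio hk ha)
    have : (((univ : Finset α) \ S).powersetCard (a - S.card)).card =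
        (Fintype.card α - S.card).choose (a - S.card) := by
      rw [card_powersetCard, card_sdiff_of_subset (subset_univ _), card_univ]
    rw [← this]
    refine card_le_card_of_injOn (fun A => A \ S) ?_ ?_
    · intro A hA
      simp only [coe_filter, Set.mem_ofPred_eq, mem_powersetCard] at hA
      simp only [mem_coe, mem_powersetCard]
      refine ⟨sdiff_subset_sdiff (subset_univ _) subset_rfl, ?_⟩
      rw [card_sdiff_of_subset hA.2, hA.1.2]
    · intro A hA A' hA' h
      simp only [coe_filter, Set.mem_ofPred_eq] at hA hA' h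
      rw [← sdiff_union_of_subset hA.2, h, sdiff_union_of_subset hA'.2]
  · have : (((univ : Finset α).powersetCard a).filter fun A => S ⊆ A) = ∅ := by
      rw [filter_eq_empty_iff]
      intro A hA hS
      have := card_le_card hS
      rw [(mem_powersetCard.1 hA).2] at this
      exact hk this
    rw [this]
    simp

/-- All edges of `μ` have both endpoints free. -/
def Alive (ρ μ : Finset (Edge n)) : Prop := ∀ e ∈ μ, ¬ Cov ρ (.inl e.1) ∧ ¬ Cov ρ (.inr e.2)

theorem exists_first {m : ℕ} (supp : Fin m → Finset (Edge n)) {κ ℓ s : ℕ}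
    (hκ : ∀ i, (supp i).card ≤ κ) (hn : 0 < n) (hℓ : ℓ ≤ n)
    (hpar : 4 * ((ℓ + 1) * ℓ * κ) ≤ (n + 1) * n) (hm : m ≤ 4 ^ s) :
    ∃ ρ : Finset (Edge n), IsM ρ ∧ ρ.card = n - ℓ ∧
      ∀ i, ∀ μ ⊆ supp i, IsM μ → Alive ρ μ → μ.card ≤ s := by
  set Ω : Finset (Finset (Fin (n + 1)) × Finset (Fin n)) :=
    (univ.powersetCard (ℓ + 1)) ×ˢ (univ.powersetCard ℓ) with hΩ
  have hΩc : Ω.card = (n + 1).choose (ℓ + 1) * n.choose ℓ := by
    rw [hΩ, card_product, card_powersetCard, card_powersetCard]; simp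
  have hΩpos : 0 < Ω.card := by
    rw [hΩc]
    exact Nat.mul_pos (Nat.choose_pos (by omega)) (Nat.choose_pos hℓ)
  let bad : Fin m → Finset (Finset (Fin (n + 1)) × Finset (Fin n)) := fun i =>
    (((supp i).powersetCard (s + 1)).filter fun μ => IsM μ).biUnion fun μ =>
      Ω.filter fun x => μ.image Prod.fst ⊆ x.1 ∧ μ.image Prod.snd ⊆ x.2
  have hone : ∀ μ : Finset (Edge n), IsM μ → μ.card = s + 1 →
      (Ω.filter fun x => μ.image Prod.fst ⊆ x.1 ∧ μ.image Prod.snd ⊆ x.2).card *
        ((n + 1) * n) ^ (s + 1) ≤ Ω.card * ((ℓ + 1) * ℓ) ^ (s + 1) := by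
    intro μ hμ hc
    have e1 : (Ω.filter fun x => μ.image Prod.fst ⊆ x.1 ∧ μ.image Prod.snd ⊆ x.2) =
        ((univ.powersetCard (ℓ + 1)).filter fun A => μ.image Prod.fst ⊆ A) ×ˢ
        ((univ.powersetCard ℓ).filter fun A => μ.image Prod.snd ⊆ A) := by
      rw [hΩ]
      ext x
      simp only [mem_filter, mem_product]
      tauto
    have h1 := card_superset (μ.image Prod.fst) (a := ℓ + 1) (by simp; omega)
    have h2 := card_superset (μ.image Prod.snd) (a := ℓ) (by simpa using hℓ)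
    rw [hμ.card_fst, hc, Fintype.card_fin] at h1
    rw [hμ.card_snd, hc, Fintype.card_fin] at h2
    rw [e1, card_product, hΩc, mul_pow, mul_pow]
    calc _ = (((univ.powersetCard (ℓ + 1)).filter fun A => μ.image Prod.fst ⊆ A).card *
            (n + 1) ^ (s + 1)) *
          (((univ.powersetCard ℓ).filter fun A => μ.image Prod.snd ⊆ A).card * n ^ (s + 1)) := by
            ring
      _ ≤ ((n + 1).choose (ℓ + 1) * (ℓ + 1) ^ (s + 1)) * (n.choose ℓ * ℓ ^ (s + 1)) :=
          Nat.mul_le_mul (by convert h1) (by convert h2)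
      _ = _ := by ring
  have hbad : ∀ i, (bad i).card * 4 ^ (s + 1) ≤ Ω.card := by
    intro i
    have hNpos : 0 < ((n + 1) * n) ^ (s + 1) := by positivity
    apply Nat.le_of_mul_le_mul_right _ hNpos
    have h1 : (bad i).card * ((n + 1) * n) ^ (s + 1) ≤
        κ ^ (s + 1) * (Ω.card * ((ℓ + 1) * ℓ) ^ (s + 1)) := by
      calc (bad i).card * ((n + 1) * n) ^ (s + 1)
          ≤ (∑ μ ∈ ((supp i).powersetCard (s + 1)).filter fun μ => IsM μ,
              (Ω.filter fun x => μ.image Prod.fst ⊆ x.1 ∧ μ.image Prod.snd ⊆ x.2).card) *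
                ((n + 1) * n) ^ (s + 1) := Nat.mul_le_mul_right _ card_biUnion_le
        _ = ∑ μ ∈ ((supp i).powersetCard (s + 1)).filter fun μ => IsM μ,
              (Ω.filter fun x => μ.image Prod.fst ⊆ x.1 ∧ μ.image Prod.snd ⊆ x.2).card *
                ((n + 1) * n) ^ (s + 1) := by rw [sum_mul]
        _ ≤ (((supp i).powersetCard (s + 1)).filter fun μ => IsM μ).card *
              (Ω.card * ((ℓ + 1) * ℓ) ^ (s + 1)) := by
            rw [← smul_eq_mul]
            apply sum_le_card_nsmul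
            intro μ hμ
            obtain ⟨hμ1, hμ2⟩ := mem_filter.1 hμ
            exact hone μ hμ2 (mem_powersetCard.1 hμ1).2
        _ ≤ κ ^ (s + 1) * (Ω.card * ((ℓ + 1) * ℓ) ^ (s + 1)) := by
            apply Nat.mul_le_mul_right
            refine (card_filter_le _ _).trans ?_
            rw [card_powersetCard]
            exact (Nat.choose_le_pow _ _).trans (Nat.pow_le_pow_left (hκ i) _)
    calc (bad i).card * 4 ^ (s + 1) * ((n + 1) * n) ^ (s + 1)
        = ((bad i).card * ((n + 1) * n) ^ (s + 1)) * 4 ^ (s + 1) := by ring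
      _ ≤ (κ ^ (s + 1) * (Ω.card * ((ℓ + 1) * ℓ) ^ (s + 1))) * 4 ^ (s + 1) :=
          Nat.mul_le_mul_right _ h1
      _ = Ω.card * (4 * ((ℓ + 1) * ℓ * κ)) ^ (s + 1) := by
          rw [mul_pow 4, mul_pow _ κ]; ring
      _ ≤ Ω.card * ((n + 1) * n) ^ (s + 1) :=
          Nat.mul_le_mul_left _ (Nat.pow_le_pow_left hpar _)
  have hex : ∃ x ∈ Ω, ∀ i, x ∉ bad i := by
    by_contra hcon
    push Not at hcon
    have h1 : Ω ⊆ univ.biUnion bad := by
      intro x hx
      obtain ⟨i, hi⟩ := hcon x hx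
      exact mem_biUnion.2 ⟨i, mem_univ _, hi⟩
    have h2 : Ω.card * 4 ^ (s + 1) ≤ 4 ^ s * Ω.card := by
      calc Ω.card * 4 ^ (s + 1) ≤ (∑ i, (bad i).card) * 4 ^ (s + 1) :=
            Nat.mul_le_mul_right _ ((card_le_card h1).trans card_biUnion_le)
        _ = ∑ i, (bad i).card * 4 ^ (s + 1) := by rw [sum_mul]
        _ ≤ (univ : Finset (Fin m)).card * Ω.card := by
            rw [← smul_eq_mul]
            exact sum_le_card_nsmul _ _ _ fun i _ => hbad i
        _ ≤ 4 ^ s * Ω.card := by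
            rw [card_univ, Fintype.card_fin]
            exact Nat.mul_le_mul_right _ hm
    rw [pow_succ] at h2
    have h4 : 0 < 4 ^ s * Ω.card := by positivity
    nlinarith
  obtain ⟨⟨A, B⟩, hx, hgood⟩ := hex
  rw [hΩ, mem_product] at hx
  obtain ⟨hA, hB⟩ := hx
  simp only [mem_powersetCard] at hA hB
  have hcS : ((univ : Finset (Fin (n + 1))) \ A).card = n - ℓ := by
    rw [card_sdiff_of_subset (subset_univ _), card_univ, Fintype.card_fin, hA.2]; omega
  have hcT : ((univ : Finset (Fin n)) \ B).card = n - ℓ := by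
    rw [card_sdiff_of_subset (subset_univ _), card_univ, Fintype.card_fin, hB.2]
  let φ := Finset.equivOfCardEq (hcS.trans hcT.symm)
  let ρ : Finset (Edge n) := (univ \ A).attach.image fun p => (p.1, (φ p).1)
  have hinj : Function.Injective fun p : { x // x ∈ (univ : Finset (Fin (n + 1))) \ A } =>
      ((p.1, (φ p).1) : Edge n) := by
    intro p q hpq
    exact Subtype.ext (Prod.ext_iff.1 hpq).1
  have hρM : IsM ρ := by
    intro e he f hf hef
    obtain ⟨p, _, rfl⟩ := mem_image.1 he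
    obtain ⟨q, _, rfl⟩ := mem_image.1 hf
    rcases hef with h | h
    · have : p = q := Subtype.ext h
      rw [this]
    · have : p = q := φ.injective (Subtype.ext h)
      rw [this]
  refine ⟨ρ, hρM, ?_, ?_⟩
  · rw [card_image_of_injective _ hinj, card_attach, hcS]
  · intro i μ hμs hμM hμA
    by_contra hlt
    push Not at hlt
    obtain ⟨μ', hμ'μ, hμ'c⟩ := exists_subset_card_eq (show s + 1 ≤ μ.card by omega)
    apply hgood i
    simp only [bad, mem_biUnion, mem_filter]
    refine ⟨μ', ⟨mem_powersetCard.2 ⟨hμ'μ.trans hμs, hμ'c⟩, hμM.mono hμ'μ⟩,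
      by rw [hΩ, mem_product]; simp only [mem_powersetCard]; exact ⟨hA, hB⟩, ?_, ?_⟩
    · intro p hp
      obtain ⟨e, he, rfl⟩ := mem_image.1 hp
      by_contra hpA
      apply (hμA e (hμ'μ he)).1
      exact ⟨_, mem_image.2 ⟨⟨e.1, mem_sdiff.2 ⟨mem_univ _, hpA⟩⟩, mem_attach _ _, rfl⟩, rfl⟩
    · intro h hh
      obtain ⟨e, he, rfl⟩ := mem_image.1 hh
      by_contra hpB
      apply (hμA e (hμ'μ he)).2
      refine ⟨_, mem_image.2 ⟨φ.symm ⟨e.2, mem_sdiff.2 ⟨mem_univ _, hpB⟩⟩, mem_attach _ _, rfl⟩, ?_⟩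
      simp [inc]

lemma exists_cover {X ρ : Finset (Edge n)} {s : ℕ}
    (h : ∀ μ ⊆ X, IsM μ → Alive ρ μ → μ.card ≤ s) :
    ∃ Q : List (Vx n), Q.length ≤ 2 * s ∧
      ∀ e ∈ X, ¬ Cov ρ (.inl e.1) → ¬ Cov ρ (.inr e.2) → ∃ v ∈ Q, inc e v := by
  obtain ⟨μ, hμ, hmax⟩ := exists_max_image (X.powerset.filter fun μ => IsM μ ∧ Alive ρ μ) card
    ⟨∅, by simp [isM_empty, Alive]⟩
  simp only [mem_filter, mem_powerset] at hμ hmax
  obtain ⟨hμX, hμM, hμA⟩ := hμ
  refine ⟨μ.toList.flatMap fun e => [Sum.inl e.1, Sum.inr e.2], ?_, ?_⟩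
  · have : (μ.toList.flatMap fun e => [Sum.inl e.1, Sum.inr e.2] : List (Vx n)).length =
        2 * μ.card := by simp [List.length_flatMap, mul_comm]
    rw [this]
    exact Nat.mul_le_mul_left _ (h μ hμX hμM hμA)
  · intro e heX h1 h2
    by_contra hcon
    push Not at hcon
    have hQ : ∀ f ∈ μ, f.1 ≠ e.1 ∧ f.2 ≠ e.2 := by
      intro f hf
      constructor
      · intro hfe
        exact hcon (Sum.inl f.1) (List.mem_flatMap.2 ⟨f, mem_toList.2 hf, by simp⟩) hfe.symm
      · intro hfe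
        exact hcon (Sum.inr f.2) (List.mem_flatMap.2 ⟨f, mem_toList.2 hf, by simp⟩) hfe.symm
    have heμ : e ∉ μ := fun he => (hQ e he).1 rfl
    have hins : IsM (insert e μ) := isM_insert hμM (fun f hf => (hQ f hf).1)
      (fun f hf => (hQ f hf).2)
    have := hmax (insert e μ) ⟨insert_subset heX hμX, hins, by
      intro f hf
      rcases mem_insert.1 hf with rfl | hf
      · exact ⟨h1, h2⟩
      · exact hμA f hf⟩
    rw [card_insert_of_notMem heμ] at this
    omega

end Pool.Agent.Lib.MP_e81270_lc_LocalExt
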