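import Pool.Agent.Lib.MP_e81270_lc_LocalExt.Matching

/-!
# The pigeonhole switching lemma

For a list `l` of terms (sets of edges of bounded size) and a random matching `M` extending a
given matching, with high probability the disjunction of the terms has a shallow matching decision
tree relative to `M`.
-/

namespace Pool.Agent.Lib.MP_e81270_lc_LocalExt

open Classical Finset

variable {n : ℕ}

/-- The first term of the list which is compatible with `M`. -/
noncomputable def first (l : List (Finset (Edge n))) (M : Finset (Edge n)) :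
    Option (Finset (Edge n)) :=
  l.find? fun π => decide (IsM (M ∪ π))

lemma first_some {l : List (Finset (Edge n))} {M π : Finset (Edge n)} (h : first l M = some π) :
    π ∈ l ∧ IsM (M ∪ π) := by
  refine ⟨List.mem_of_find?_eq_some h, ?_⟩
  have := List.find?_some h
  simpa using this

lemma first_none {l : List (Finset (Edge n))} {M : Finset (Edge n)} (h : first l M = none) :
    ∀ π ∈ l, ¬ IsM (M ∪ π) := by
  intro π hπ
  have := List.find?_eq_none.1 h π hπ
  simpa using this

lemma first_mono {l : List (Finset (Edge n))} {M R π : Finset (Edge n)} (h : first l M = some π)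
    (hMR : M ⊆ R) (hR : IsM R) (hπ : π ⊆ R) : first l R = some π := by
  induction l with
  | nil => simp [first] at h
  | cons x xs ih =>
    unfold first at h ih ⊢
    rw [List.find?_cons] at h ⊢
    by_cases hx : IsM (M ∪ x)
    · simp only [hx, decide_true] at h
      obtain rfl : x = π := by simpa using h
      have : IsM (R ∪ x) := by rwa [union_eq_left.2 hπ]
      simp [this]
    · have hx' : ¬ IsM (R ∪ x) := fun h' => hx (h'.mono (union_subset_union_left hMR))
      simp only [hx, decide_false] at h
      simp only [hx', decide_false]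
      exact ih h

/-- `M₁` is a minimal extension of `M` covering all endpoints of `σ`. -/
def Ext (M σ M₁ : Finset (Edge n)) : Prop :=
  IsM M₁ ∧ M ⊆ M₁ ∧ (∀ e ∈ σ, Cov M₁ (.inl e.1) ∧ Cov M₁ (.inr e.2)) ∧
    ∀ t ∈ M₁, t ∉ M → ∃ e ∈ σ, t.1 = e.1 ∨ t.2 = e.2

/-- The canonical tree at `M` has a branch whose terms contribute at least `s` edges. -/
inductive Long (l : List (Finset (Edge n))) : Finset (Edge n) → ℕ → Prop
  | stop {M : Finset (Edge n)} {s : ℕ} {π : Finset (Edge n)} : first l M = some π →
      s ≤ (π \ M).card → Long l M s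
  | step {M : Finset (Edge n)} {s : ℕ} {π M₁ : Finset (Edge n)} : first l M = some π →
      (π \ M).Nonempty → (π \ M).card < s → Ext M (π \ M) M₁ →
      Long l M₁ (s - (π \ M).card) → Long l M s

/-- The tree `T` decides the disjunction of the terms in `l` relative to `M`. -/
def Correct (l : List (Finset (Edge n))) (M : Finset (Edge n)) (T : MT n) : Prop :=
  ∀ M', IsM M' → M ⊆ M' → (Runs T M' true → ∃ π ∈ l, π ⊆ M') ∧
    (Runs T M' false → ∀ M'', IsM M'' → M' ⊆ M'' → ∀ π ∈ l, ¬ π ⊆ M'')

lemma Correct.mono {l : List (Finset (Edge n))} {M M₁ : Finset (Edge n)} {T : MT n}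
    (h : Correct l M T) (hs : M ⊆ M₁) : Correct l M₁ T :=
  fun M' h1 h2 => h M' h1 (hs.trans h2)

theorem exists_tree (l : List (Finset (Edge n))) : ∀ s : ℕ, 1 ≤ s → ∀ M : Finset (Edge n),
    ¬ Long l M s → ∃ T : MT n, T.depth ≤ 2 * s ∧ Correct l M T := by
  intro s
  induction s using Nat.strong_induction_on with
  | _ s ih =>
  intro hs M hL
  cases hf : first l M with
  | none =>
    refine ⟨.leaf false, by simp [MT.depth], fun M' hM' hMM' => ⟨fun h => ?_, ?_⟩⟩
    · simp [Runs] at h
    · intro _ M'' hM'' h2 π hπ hπM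
      exact first_none hf π hπ (hM''.mono (union_subset (hMM'.trans h2) hπM))
  | some π =>
    obtain ⟨hπl, hπM⟩ := first_some hf
    by_cases hsub : π ⊆ M
    · refine ⟨.leaf true, by simp [MT.depth], fun M' hM' hMM' => ⟨fun _ => ?_, fun h => ?_⟩⟩
      · exact ⟨π, hπl, hsub.trans hMM'⟩
      · simp [Runs] at h
    have hne : (π \ M).Nonempty := by rwa [sdiff_nonempty]
    have hpos := hne.card_pos
    have hlt : (π \ M).card < s := by
      by_contra hge
      exact hL (Long.stop hf (by omega))
    set σ := π \ M with hσ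
    have hex : ∀ acc : Finset (Edge n), Ext M σ acc →
        ∃ T : MT n, T.depth ≤ 2 * (s - σ.card) ∧ Correct l acc T := by
      intro acc hacc
      exact ih (s - σ.card) (by omega) (by omega) acc fun h => hL (Long.step hf hne hlt hacc h)
    let F : Finset (Edge n) → MT n := fun acc =>
      if h : Ext M σ acc then (hex acc h).choose else .leaf false
    have hF : ∀ acc, (F acc).depth ≤ 2 * (s - σ.card) := by
      intro acc
      by_cases h : Ext M σ acc
      · simp only [F, dif_pos h]; exact (hex acc h).choose_spec.1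
      · simp [F, dif_neg h, MT.depth]
    let vs : List (Vx n) := σ.toList.flatMap fun e => [Sum.inl e.1, Sum.inr e.2]
    have hvs : vs.length = 2 * σ.card := by
      simp [vs, List.length_flatMap, mul_comm]
    refine ⟨queryAll F vs M, ?_, ?_⟩
    · have := depth_queryAll F _ hF vs M
      omega
    · intro M' hM' hMM'
      have key : ∀ b, Runs (queryAll F vs M) M' b → ∃ acc, Ext M σ acc ∧ acc ⊆ M' ∧
          Runs (F acc) M' b := by
        intro b hb
        obtain ⟨acc, h1, h2, h3, h4, h5⟩ := hb.queryAll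
        have hacc : acc ⊆ M' := h2.trans (union_subset hMM' subset_rfl)
        refine ⟨acc, ⟨hM'.mono hacc, h1, ?_, ?_⟩, hacc, h5⟩
        · intro e he
          constructor
          · obtain ⟨t, ht, htv⟩ := h3 (Sum.inl e.1)
              (List.mem_flatMap.2 ⟨e, mem_toList.2 he, by simp⟩)
            exact ⟨t, (mem_inter.1 ht).1, htv⟩
          · obtain ⟨t, ht, htv⟩ := h3 (Sum.inr e.2)
              (List.mem_flatMap.2 ⟨e, mem_toList.2 he, by simp⟩)
            exact ⟨t, (mem_inter.1 ht).1, htv⟩
        · intro t ht htM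
          rcases h4 t ht with h | ⟨v, hv, htv⟩
          · exact absurd h htM
          obtain ⟨e, he, hev⟩ := List.mem_flatMap.1 hv
          rw [mem_toList] at he
          rcases List.mem_cons.1 hev with rfl | hev
          · exact ⟨e, he, Or.inl htv⟩
          · obtain rfl := List.mem_singleton.1 hev
            exact ⟨e, he, Or.inr htv⟩
      constructor
      · intro hb
        obtain ⟨acc, hE, hacc, hr⟩ := key _ hb
        simp only [F, dif_pos hE] at hr
        exact ((hex acc hE).choose_spec.2 M' hM' hacc).1 hr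
      · intro hb
        obtain ⟨acc, hE, hacc, hr⟩ := key _ hb
        simp only [F, dif_pos hE] at hr
        exact ((hex acc hE).choose_spec.2 M' hM' hacc).2 hr

/-! ### Counting -/

/-- Pigeons not covered by `A`. -/
noncomputable def freeP (A : Finset (Edge n)) : Finset (Fin (n + 1)) := univ \ A.image Prod.fst

/-- Holes not covered by `A`. -/
noncomputable def freeH (A : Finset (Edge n)) : Finset (Fin n) := univ \ A.image Prod.snd

lemma card_freeP {A : Finset (Edge n)} (hA : IsM A) : (freeP A).card = n + 1 - A.card := by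
  rw [freeP, card_sdiff_of_subset (subset_univ _), hA.card_fst, card_univ, Fintype.card_fin]

lemma card_freeH {A : Finset (Edge n)} (hA : IsM A) : (freeH A).card = n - A.card := by
  rw [freeH, card_sdiff_of_subset (subset_univ _), hA.card_snd, card_univ, Fintype.card_fin]

/-- Possible pieces of a matching at the endpoints of the edge `e`. -/
noncomputable def opts (P : Finset (Fin (n + 1))) (H : Finset (Fin n)) (e : Edge n) :
    Finset (Finset (Edge n)) :=
  image₂ (· ∪ ·) (insert ∅ (H.image fun h => {(e.1, h)})) (insert ∅ (P.image fun p => {(p, e.2)}))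

lemma card_opts (P : Finset (Fin (n + 1))) (H : Finset (Fin n)) (e : Edge n) :
    (opts P H e).card ≤ (H.card + 1) * (P.card + 1) := by
  refine (card_image₂_le _ _ _).trans (Nat.mul_le_mul ?_ ?_)
  · exact (card_insert_le _ _).trans (Nat.succ_le_succ card_image_le)
  · exact (card_insert_le _ _).trans (Nat.succ_le_succ card_image_le)

/-- Possible pieces of a matching at the endpoints of the edges in the list. -/
noncomputable def tausL (P : Finset (Fin (n + 1))) (H : Finset (Fin n)) :
    List (Edge n) → Finset (Finset (Edge n))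
  | [] => {∅}
  | e :: es => image₂ (· ∪ ·) (opts P H e) (tausL P H es)

lemma card_tausL (P : Finset (Fin (n + 1))) (H : Finset (Fin n)) (es : List (Edge n)) :
    (tausL P H es).card ≤ ((H.card + 1) * (P.card + 1)) ^ es.length := by
  induction es with
  | nil => simp [tausL]
  | cons e es ih =>
    simp only [tausL, List.length_cons, pow_succ']
    exact (card_image₂_le _ _ _).trans (Nat.mul_le_mul (card_opts _ _ _) ih)

lemma mem_tausL {P : Finset (Fin (n + 1))} {H : Finset (Fin n)} {es : List (Edge n)}
    {τ : Finset (Edge n)} (hτ : IsM τ) (hP : ∀ t ∈ τ, t.1 ∈ P) (hH : ∀ t ∈ τ, t.2 ∈ H)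
    (ht : ∀ t ∈ τ, ∃ e ∈ es, t.1 = e.1 ∨ t.2 = e.2) : τ ∈ tausL P H es := by
  induction es generalizing τ with
  | nil =>
    have : τ = ∅ := by
      rw [eq_empty_iff_forall_notMem]
      intro t h
      obtain ⟨e, he, _⟩ := ht t h
      simp at he
    simp [tausL, this]
  | cons e es ih =>
    simp only [tausL]
    rw [mem_image₂]
    refine ⟨τ.filter (fun t => t.1 = e.1) ∪ τ.filter (fun t => t.2 = e.2), ?_,
      τ.filter (fun t => ∃ e' ∈ es, t.1 = e'.1 ∨ t.2 = e'.2), ?_, ?_⟩
    · rw [opts, mem_image₂]
      refine ⟨_, ?_, _, ?_, rfl⟩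
      · rw [mem_insert]
        by_cases h : ∃ t ∈ τ, t.1 = e.1
        · obtain ⟨t, htτ, hte⟩ := h
          right
          refine mem_image.2 ⟨t.2, hH t htτ, ?_⟩
          ext x
          simp only [mem_singleton, mem_filter]
          constructor
          · rintro rfl
            have : (e.1, t.2) = t := Prod.ext hte.symm rfl
            rw [this]; exact ⟨htτ, hte⟩
          · rintro ⟨hx, hxe⟩
            have := hτ x hx t htτ (Or.inl (hxe.trans hte.symm))
            rw [this]; exact Prod.ext hte rfl
        · left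
          rw [filter_eq_empty_iff]
          intro x hx hxe
          exact h ⟨x, hx, hxe⟩
      · rw [mem_insert]
        by_cases h : ∃ t ∈ τ, t.2 = e.2
        · obtain ⟨t, htτ, hte⟩ := h
          right
          refine mem_image.2 ⟨t.1, hP t htτ, ?_⟩
          ext x
          simp only [mem_singleton, mem_filter]
          constructor
          · rintro rfl
            have : (t.1, e.2) = t := Prod.ext rfl hte.symm
            rw [this]; exact ⟨htτ, hte⟩
          · rintro ⟨hx, hxe⟩
            have := hτ x hx t htτ (Or.inr (hxe.trans hte.symm))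
            rw [this]; exact Prod.ext rfl hte
        · left
          rw [filter_eq_empty_iff]
          intro x hx hxe
          exact h ⟨x, hx, hxe⟩
    · apply ih
      · exact hτ.mono (filter_subset _ _)
      · intro t h; exact hP t (mem_filter.1 h).1
      · intro t h; exact hH t (mem_filter.1 h).1
      · intro t h; exact (mem_filter.1 h).2
    · ext t
      simp only [mem_union, mem_filter]
      constructor
      · rintro ((h | h) | h) <;> exact h.1
      · intro h
        obtain ⟨e', he', hte⟩ := ht t h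
        rcases List.mem_cons.1 he' with rfl | he'
        · rcases hte with hte | hte
          · exact Or.inl (Or.inl ⟨h, hte⟩)
          · exact Or.inl (Or.inr ⟨h, hte⟩)
        · exact Or.inr ⟨h, e', he', hte⟩

/-- Possible answers at the endpoints of `σ`, given the target matching `R`. -/
noncomputable def taus (R σ : Finset (Edge n)) : Finset (Finset (Edge n)) :=
  tausL (freeP (R \ σ)) (freeH (R \ σ)) σ.toList

/-- Decoding: the possible starting matchings which lead to `R` with `J` edges of terms. -/
noncomputable def cands (l : List (Finset (Edge n))) :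
    ℕ → Finset (Edge n) → Finset (Finset (Edge n))
  | 0, R => {R}
  | J + 1, R =>
    if IsM R then
      match first l R with
      | none => ∅
      | some π => (range (J + 1)).biUnion fun j => (π.powersetCard (j + 1)).biUnion fun σ =>
          (taus R σ).biUnion fun τ => (cands l (J - j) ((R \ σ) ∪ τ)).image (· \ τ)
    else ∅
  termination_by J => J

lemma sum_two_pow_le (J : ℕ) : ∑ i ∈ range (J + 1), 2 ^ (J - i) ≤ 2 ^ (J + 1) := by
  have h : ∀ N : ℕ, ∑ i ∈ range N, 2 ^ i + 1 = 2 ^ N := by
    intro N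
    induction N with
    | zero => simp
    | succ N ih => rw [sum_range_succ, pow_succ]; omega
  have h2 := sum_range_reflect (fun i => 2 ^ i) (J + 1)
  simp only [Nat.add_sub_cancel] at h2
  rw [h2]
  have := h (J + 1)
  omega

lemma card_cands {l : List (Finset (Edge n))} {k c : ℕ} (hl : ∀ π ∈ l, π.card ≤ k) :
    ∀ (J : ℕ) (R : Finset (Edge n)), c + J ≤ R.card →
      (cands l J R).card ≤ (2 * k * ((n - c + 1) * (n + 1 - c + 1))) ^ J := by
  intro J
  induction J using Nat.strong_induction_on with
  | _ J ih =>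
  intro R hR
  cases J with
  | zero => rw [cands]; simp
  | succ J =>
    rw [cands]
    split_ifs with hRM
    · cases hf : first l R with
      | none => simp
      | some π =>
        obtain ⟨hπl, hπM⟩ := first_some hf
        simp only
        set L := (n - c + 1) * (n + 1 - c + 1) with hL
        have step : ∀ j ∈ range (J + 1), ((π.powersetCard (j + 1)).biUnion fun σ =>
            (taus R σ).biUnion fun τ => (cands l (J - j) ((R \ σ) ∪ τ)).image (· \ τ)).card ≤
            (k * L) ^ (J + 1) * 2 ^ (J - j) := by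
          intro j hj
          rw [mem_range] at hj
          have h1 : ∀ σ ∈ π.powersetCard (j + 1), ((taus R σ).biUnion fun τ =>
              (cands l (J - j) ((R \ σ) ∪ τ)).image (· \ τ)).card ≤
              L ^ (j + 1) * (2 * k * L) ^ (J - j) := by
            intro σ hσ
            obtain ⟨hσπ, hσc⟩ := mem_powersetCard.1 hσ
            have hcard : c + (J - j) ≤ (R \ σ).card := by
              have := le_card_sdiff σ R
              omega
            have hM' : IsM (R \ σ) := hRM.mono sdiff_subset
            have h2 : (taus R σ).card ≤ L ^ (j + 1) := by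
              refine (card_tausL _ _ _).trans ?_
              rw [length_toList, hσc, card_freeP hM', card_freeH hM']
              apply Nat.pow_le_pow_left
              apply Nat.mul_le_mul <;> omega
            refine card_biUnion_le.trans ((sum_le_card_nsmul _ _ ((2 * k * L) ^ (J - j)) ?_).trans ?_)
            · intro τ _
              refine card_image_le.trans (ih (J - j) (by omega) _ ?_)
              exact hcard.trans (card_le_card subset_union_left)
            · rw [smul_eq_mul]
              exact Nat.mul_le_mul_right _ h2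
          refine card_biUnion_le.trans ((sum_le_card_nsmul _ _ _ h1).trans ?_)
          rw [smul_eq_mul, card_powersetCard]
          have h3 : π.card.choose (j + 1) ≤ k ^ (j + 1) :=
            (Nat.choose_le_pow _ _).trans (Nat.pow_le_pow_left (hl π hπl) _)
          refine (Nat.mul_le_mul_right _ h3).trans (le_of_eq ?_)
          obtain ⟨a, rfl⟩ : ∃ a, J = j + a := ⟨J - j, by omega⟩
          rw [Nat.add_sub_cancel_left]
          ring_nf
        refine card_biUnion_le.trans ((sum_le_sum step).trans ?_)
        rw [← mul_sum]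
        have : ∑ i ∈ range (J + 1), 2 ^ (J - i) ≤ 2 ^ (J + 1) := sum_two_pow_le J
        calc (k * L) ^ (J + 1) * ∑ i ∈ range (J + 1), 2 ^ (J - i)
            ≤ (k * L) ^ (J + 1) * 2 ^ (J + 1) := Nat.mul_le_mul_left _ this
          _ = (2 * k * L) ^ (J + 1) := by rw [← mul_pow]; ring
    · simp

lemma inc_of_share {e f : Edge n} (h : e.1 = f.1 ∨ e.2 = f.2) :
    ∃ v : Vx n, inc e v ∧ inc f v := by
  rcases h with h | h
  · exact ⟨.inl f.1, h, rfl⟩
  · exact ⟨.inr f.2, h, rfl⟩

theorem long_cands {l : List (Finset (Edge n))} {k : ℕ} (hl : ∀ π ∈ l, π.card ≤ k)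
    {M : Finset (Edge n)} {s : ℕ} (h : Long l M s) (hs : 1 ≤ s) (hM : IsM M) :
    ∃ J, s ≤ J ∧ J < s + k ∧ ∃ R, IsM R ∧ M ⊆ R ∧ R.card = M.card + J ∧ M ∈ cands l J R := by
  induction h with
  | @stop M s π hf hle =>
    obtain ⟨hπl, hπM⟩ := first_some hf
    have hk : (π \ M).card ≤ k := (card_le_card sdiff_subset).trans (hl π hπl)
    obtain ⟨j, hj⟩ : ∃ j, (π \ M).card = j + 1 := ⟨(π \ M).card - 1, by omega⟩
    refine ⟨j + 1, by omega, by omega, M ∪ π, hπM, subset_union_left, ?_, ?_⟩
    · rw [← hj, ← card_union_of_disjoint disjoint_sdiff, union_sdiff_self_eq_union]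
    · have hfR : first l (M ∪ π) = some π := first_mono hf subset_union_left hπM subset_union_right
      rw [cands, if_pos hπM, hfR]
      simp only [mem_biUnion, mem_range, mem_image]
      refine ⟨j, by omega, π \ M, mem_powersetCard.2 ⟨sdiff_subset, hj⟩, ∅, ?_, M, ?_, by simp⟩
      · apply mem_tausL <;> simp [isM_empty]
      · rw [Nat.sub_self, cands, mem_singleton]
        ext x
        simp only [mem_union, mem_sdiff, notMem_empty, or_false]
        tauto
  | @step M s π M₁ hf hne hlt hE hL ih =>
    obtain ⟨hπl, hπM⟩ := first_some hf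
    obtain ⟨hM₁, hMM₁, hcov, htouch⟩ := hE
    obtain ⟨J₁, h1, h2, R₁, hR₁, hsub, hcard, hmem⟩ := ih (by omega) hM₁
    set σ := π \ M with hσ
    set τ := M₁ \ M with hτ
    have hτR₁ : τ ⊆ R₁ := sdiff_subset.trans hsub
    have hMτ : M ⊆ R₁ \ τ := by
      intro x hx
      exact mem_sdiff.2 ⟨hsub (hMM₁ hx), fun h => (mem_sdiff.1 h).2 hx⟩
    -- edges of `σ` share no vertex with `R₁ \ τ`
    have hsep : ∀ e ∈ σ, ∀ f ∈ R₁ \ τ, ¬ (e.1 = f.1 ∨ e.2 = f.2) := by
      intro e he f hf' hef
      obtain ⟨v, hev, hfv⟩ := inc_of_share hef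
      have hcv : Cov M₁ v := by
        obtain ⟨c1, c2⟩ := hcov e he
        cases v with
        | inl p => simp only [inc] at hev; subst hev; exact c1
        | inr h => simp only [inc] at hev; subst hev; exact c2
      obtain ⟨t, ht, htv⟩ := hcv
      by_cases htM : t ∈ M
      · -- then `e` and `t` are both in the matching `M ∪ π`
        have := hπM.eq_of_inc (mem_union_right _ (mem_sdiff.1 he).1) (mem_union_left _ htM) hev htv
        exact (mem_sdiff.1 he).2 (this ▸ htM)
      · have hft : f = t := hR₁.eq_of_inc (mem_sdiff.1 hf').1 (hsub ht) hfv htv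
        exact (mem_sdiff.1 hf').2 (mem_sdiff.2 ⟨hft ▸ ht, hft ▸ htM⟩)
    have hdisj : Disjoint (R₁ \ τ) σ := by
      rw [Finset.disjoint_left]
      intro x hx hxσ
      exact hsep x hxσ x hx (Or.inl rfl)
    set R := (R₁ \ τ) ∪ σ with hRdef
    have hRM : IsM R := by
      intro a ha b hb hab
      rcases mem_union.1 ha with ha | ha <;> rcases mem_union.1 hb with hb | hb
      · exact hR₁ a (mem_sdiff.1 ha).1 b (mem_sdiff.1 hb).1 hab
      · exact absurd (hab.imp Eq.symm Eq.symm) (hsep b hb a ha)
      · exact absurd hab (hsep a ha b hb)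
      · exact hπM a (mem_union_right _ (mem_sdiff.1 ha).1) b (mem_union_right _ (mem_sdiff.1 hb).1)
          hab
    have hRσ : R \ σ = R₁ \ τ := by
      rw [hRdef, union_sdiff_right]
      exact sdiff_eq_self_of_disjoint hdisj
    have hπR : π ⊆ R := by
      intro x hx
      by_cases hxM : x ∈ M
      · exact mem_union_left _ (hMτ hxM)
      · exact mem_union_right _ (mem_sdiff.2 ⟨hx, hxM⟩)
    have hfR : first l R = some π := first_mono hf (hMτ.trans subset_union_left) hRM hπR
    have hpos := hne.card_pos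
    obtain ⟨j, hj⟩ : ∃ j, σ.card = j + 1 := ⟨σ.card - 1, by omega⟩
    have hcτ : τ.card + M.card = M₁.card := card_sdiff_add_card_eq_card hMM₁
    have hcR : R.card = M.card + (J₁ + j + 1) := by
      rw [hRdef, card_union_of_disjoint hdisj, card_sdiff_of_subset hτR₁, hcard, hj]
      omega
    refine ⟨J₁ + j + 1, by omega, by omega, R, hRM, hMτ.trans subset_union_left, hcR, ?_⟩
    rw [cands, if_pos hRM, hfR]
    simp only [mem_biUnion, mem_range, mem_image]
    refine ⟨j, by omega, σ, mem_powersetCard.2 ⟨sdiff_subset, hj⟩, τ, ?_, M₁, ?_, ?_⟩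
    · rw [taus, hRσ]
      apply mem_tausL (hM₁.mono sdiff_subset)
      · intro t ht
        rw [freeP, mem_sdiff]
        refine ⟨mem_univ _, fun h => ?_⟩
        obtain ⟨f, hf', hft⟩ := mem_image.1 h
        have := hR₁ f (mem_sdiff.1 hf').1 t (hτR₁ ht) (Or.inl hft)
        exact (mem_sdiff.1 hf').2 (this ▸ ht)
      · intro t ht
        rw [freeH, mem_sdiff]
        refine ⟨mem_univ _, fun h => ?_⟩
        obtain ⟨f, hf', hft⟩ := mem_image.1 h
        have := hR₁ f (mem_sdiff.1 hf').1 t (hτR₁ ht) (Or.inr hft)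
        exact (mem_sdiff.1 hf').2 (this ▸ ht)
      · intro t ht
        obtain ⟨e, he, hte⟩ := htouch t (mem_sdiff.1 ht).1 (mem_sdiff.1 ht).2
        exact ⟨e, mem_toList.2 he, hte⟩
    · rw [hRσ, sdiff_union_of_subset hτR₁]
      have : J₁ + j - j = J₁ := by omega
      rw [this]
      exact hmem
    · ext x
      simp only [hτ, mem_sdiff, not_and, not_not]
      constructor
      · rintro ⟨hx, hx'⟩; exact hx' hx
      · intro hx; exact ⟨hMM₁ hx, fun _ => hx⟩

/-- The matchings with `c` edges which extend `ρ`. -/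
noncomputable def exts (ρ : Finset (Edge n)) (c : ℕ) : Finset (Finset (Edge n)) :=
  univ.filter fun M => IsM M ∧ ρ ⊆ M ∧ M.card = c

lemma mem_exts {ρ M : Finset (Edge n)} {c : ℕ} :
    M ∈ exts ρ c ↔ IsM M ∧ ρ ⊆ M ∧ M.card = c := by simp [exts]

lemma card_exts_succ (ρ : Finset (Edge n)) (c : ℕ) :
    (exts ρ (c + 1)).card * (c + 1 - ρ.card) ≤ (exts ρ c).card * ((n + 1 - c) * (n - c)) := by
  have h1 : ((exts ρ (c + 1)).sigma fun M => M \ ρ).card =
      (exts ρ (c + 1)).card * (c + 1 - ρ.card) := by
    rw [card_sigma, sum_const_nat (m := c + 1 - ρ.card)]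
    intro M hM
    obtain ⟨_, h2, h3⟩ := mem_exts.1 hM
    rw [card_sdiff_of_subset h2, h3]
  have h2 : ((exts ρ c).sigma fun M => freeP M ×ˢ freeH M).card =
      (exts ρ c).card * ((n + 1 - c) * (n - c)) := by
    rw [card_sigma, sum_const_nat (m := (n + 1 - c) * (n - c))]
    intro M hM
    obtain ⟨h1, _, h3⟩ := mem_exts.1 hM
    rw [card_product, card_freeP h1, card_freeH h1, h3]
  rw [← h1, ← h2]
  refine card_le_card_of_injOn (fun x => ⟨x.1.erase x.2, x.2⟩) ?_ ?_
  · rintro ⟨M, e⟩ hx
    simp only [coe_sigma, Set.mem_sigma_iff, mem_coe, mem_sdiff] at hx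
    obtain ⟨hM, heM, heρ⟩ := hx
    obtain ⟨h1, h2, h3⟩ := mem_exts.1 hM
    simp only [coe_sigma, Set.mem_sigma_iff, mem_coe, mem_product]
    refine ⟨mem_exts.2 ⟨h1.mono (erase_subset _ _), ?_, ?_⟩, ?_, ?_⟩
    · intro x hx
      exact mem_erase.2 ⟨fun h => heρ (h ▸ hx), h2 hx⟩
    · rw [card_erase_of_mem heM, h3]; rfl
    · rw [freeP, mem_sdiff]
      refine ⟨mem_univ _, fun h => ?_⟩
      obtain ⟨f, hf, hfe⟩ := mem_image.1 h
      obtain ⟨hne, hfM⟩ := mem_erase.1 hf
      exact hne (h1 f hfM e heM (Or.inl hfe))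
    · rw [freeH, mem_sdiff]
      refine ⟨mem_univ _, fun h => ?_⟩
      obtain ⟨f, hf, hfe⟩ := mem_image.1 h
      obtain ⟨hne, hfM⟩ := mem_erase.1 hf
      exact hne (h1 f hfM e heM (Or.inr hfe))
  · rintro ⟨M, e⟩ hx ⟨M', e'⟩ hx' hxx
    simp only [coe_sigma, Set.mem_sigma_iff, mem_coe, mem_sdiff] at hx hx'
    simp only [Sigma.mk.injEq] at hxx
    obtain ⟨h1, h2⟩ := hxx
    have h2' := eq_of_heq h2
    subst h2'
    have : M = M' := by
      rw [← insert_erase hx.2.1, h1, insert_erase hx'.2.1]
    subst this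
    rfl

lemma card_exts_add (ρ : Finset (Edge n)) (c J : ℕ) :
    (exts ρ (c + J)).card * (c + 1 - ρ.card) ^ J ≤
      (exts ρ c).card * ((n + 1 - c) * (n - c)) ^ J := by
  induction J with
  | zero => simp
  | succ J ih =>
    have h := card_exts_succ ρ (c + J)
    have h1 : c + 1 - ρ.card ≤ c + J + 1 - ρ.card := by omega
    have h2 : (n + 1 - (c + J)) * (n - (c + J)) ≤ (n + 1 - c) * (n - c) :=
      Nat.mul_le_mul (by omega) (by omega)
    calc (exts ρ (c + (J + 1))).card * (c + 1 - ρ.card) ^ (J + 1)
        = ((exts ρ (c + J + 1)).card * (c + 1 - ρ.card)) * (c + 1 - ρ.card) ^ J := by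
          rw [pow_succ]; ring_nf
      _ ≤ ((exts ρ (c + J + 1)).card * (c + J + 1 - ρ.card)) * (c + 1 - ρ.card) ^ J :=
          Nat.mul_le_mul_right _ (Nat.mul_le_mul_left _ h1)
      _ ≤ ((exts ρ (c + J)).card * ((n + 1 - (c + J)) * (n - (c + J)))) *
            (c + 1 - ρ.card) ^ J := Nat.mul_le_mul_right _ h
      _ ≤ ((exts ρ (c + J)).card * ((n + 1 - c) * (n - c))) * (c + 1 - ρ.card) ^ J :=
          Nat.mul_le_mul_right _ (Nat.mul_le_mul_left _ h2)
      _ = ((exts ρ (c + J)).card * (c + 1 - ρ.card) ^ J) * ((n + 1 - c) * (n - c)) := by ring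
      _ ≤ ((exts ρ c).card * ((n + 1 - c) * (n - c)) ^ J) * ((n + 1 - c) * (n - c)) :=
          Nat.mul_le_mul_right _ ih
      _ = (exts ρ c).card * ((n + 1 - c) * (n - c)) ^ (J + 1) := by rw [pow_succ]; ring

lemma sum_le_two_mul {k : ℕ} {x : ℕ → ℕ} {A : ℕ} (h : ∀ i < k, x i * 16 ^ i ≤ A) :
    ∑ i ∈ range k, x i ≤ 2 * A := by
  have h1 : ∀ i ∈ range k, (x i : ℝ) ≤ A * (1 / 2 : ℝ) ^ i := by
    intro i hi
    have h2 := h i (mem_range.1 hi)
    have h3 : (x i : ℝ) * 2 ^ i ≤ A := by
      have : x i * 2 ^ i ≤ A :=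
        (Nat.mul_le_mul_left _ (Nat.pow_le_pow_left (by norm_num) _)).trans h2
      exact_mod_cast this
    rw [one_div, inv_pow, ← div_eq_mul_inv, le_div_iff₀ (by positivity)]
    exact h3
  have h2 : (∑ i ∈ range k, x i : ℝ) ≤ 2 * A := by
    calc (∑ i ∈ range k, x i : ℝ) ≤ ∑ i ∈ range k, (A * (1 / 2 : ℝ) ^ i) := sum_le_sum h1
      _ = A * ∑ i ∈ range k, (1 / 2 : ℝ) ^ i := by rw [mul_sum]
      _ ≤ A * 2 := mul_le_mul_of_nonneg_left (sum_geometric_two_le k) (by positivity)
      _ = 2 * A := by ring
  exact_mod_cast h2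

lemma alg1 (x B D q : ℕ) : (x * B ^ q * 16 ^ q) * D ^ q = (x * D ^ q) * (16 * B) ^ q := by
  rw [mul_pow]; ring

lemma alg2 (A B L q : ℕ) : (A * L ^ q) * (16 * B) ^ q = A * (16 * (B * L)) ^ q := by
  rw [mul_pow, mul_pow, mul_pow]; ring

lemma alg3 (x B s i : ℕ) : x * B ^ (s + i) * 16 ^ s * 16 ^ i = x * B ^ (s + i) * 16 ^ (s + i) := by
  rw [pow_add 16 s i]; ring

/-- The switching lemma: few extensions of `ρ` have a long branch. -/
theorem card_long {l : List (Finset (Edge n))} {k s c : ℕ} {ρ : Finset (Edge n)}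
    (hl : ∀ π ∈ l, π.card ≤ k) (hs : 1 ≤ s) (hρc : ρ.card ≤ c)
    (hpar : 16 * ((2 * k * ((n - c + 1) * (n + 1 - c + 1))) * ((n + 1 - c) * (n - c))) ≤
      c + 1 - ρ.card) :
    ((exts ρ c).filter fun M => Long l M s).card * 16 ^ s ≤ 2 * (exts ρ c).card := by
  have hDpos : 0 < c + 1 - ρ.card := by omega
  have hsub : ((exts ρ c).filter fun M => Long l M s) ⊆
      (range k).biUnion fun i => (exts ρ (c + (s + i))).biUnion fun R => cands l (s + i) R := by
    intro M hM
    obtain ⟨hM, hlong⟩ := mem_filter.1 hM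
    obtain ⟨h1, h2, h3⟩ := mem_exts.1 hM
    obtain ⟨J, hJ1, hJ2, R, hR, hMR, hc, hmem⟩ := long_cands hl hlong hs h1
    simp only [mem_biUnion, mem_range]
    refine ⟨J - s, by omega, R, mem_exts.2 ⟨hR, h2.trans hMR, by omega⟩, ?_⟩
    rwa [Nat.add_sub_cancel' hJ1]
  have hcands := fun (J : ℕ) (R : Finset (Edge n)) (h : c + J ≤ R.card) => card_cands hl J R h
  have hadd := card_exts_add ρ c
  generalize 2 * k * ((n - c + 1) * (n + 1 - c + 1)) = B at hpar hcands
  generalize (n + 1 - c) * (n - c) = L at hpar hadd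
  generalize c + 1 - ρ.card = D at hpar hadd hDpos
  have hterm : ∀ i : ℕ, (exts ρ (c + (s + i))).card * B ^ (s + i) * 16 ^ (s + i) ≤
      (exts ρ c).card := by
    intro i
    have h := hadd (s + i)
    have h1 : ((exts ρ (c + (s + i))).card * B ^ (s + i) * 16 ^ (s + i)) * D ^ (s + i) ≤
        (exts ρ c).card * D ^ (s + i) := by
      calc ((exts ρ (c + (s + i))).card * B ^ (s + i) * 16 ^ (s + i)) * D ^ (s + i)
          = ((exts ρ (c + (s + i))).card * D ^ (s + i)) * (16 * B) ^ (s + i) := alg1 _ _ _ _
        _ ≤ ((exts ρ c).card * L ^ (s + i)) * (16 * B) ^ (s + i) := Nat.mul_le_mul_right _ h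
        _ = (exts ρ c).card * (16 * (B * L)) ^ (s + i) := alg2 _ _ _ _
        _ ≤ (exts ρ c).card * D ^ (s + i) :=
            Nat.mul_le_mul_left _ (Nat.pow_le_pow_left hpar _)
    exact Nat.le_of_mul_le_mul_right h1 (by positivity)
  calc ((exts ρ c).filter fun M => Long l M s).card * 16 ^ s
      ≤ (∑ i ∈ range k, (exts ρ (c + (s + i))).card * B ^ (s + i)) * 16 ^ s := by
        apply Nat.mul_le_mul_right
        refine (card_le_card hsub).trans (card_biUnion_le.trans (sum_le_sum fun i _ => ?_))
        refine card_biUnion_le.trans ((sum_le_card_nsmul _ _ (B ^ (s + i)) ?_).trans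
          (le_of_eq (smul_eq_mul _ _)))
        intro R hR
        exact hcands (s + i) R (mem_exts.1 hR).2.2.ge
    _ = ∑ i ∈ range k, (exts ρ (c + (s + i))).card * B ^ (s + i) * 16 ^ s := by
        rw [sum_mul]
    _ ≤ 2 * (exts ρ c).card := by
        apply sum_le_two_mul
        intro i _
        exact (le_of_eq (alg3 _ _ _ _)).trans (hterm i)

end Pool.Agent.Lib.MP_e81270_lc_LocalExt
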